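import Pool.Agent.Helper62.HRT.Half

/-!
MP_0ef687_an: the asymptotics of the product near a resonant rational point.
-/

namespace Helper62HRT

open Filter Topology Asymptotics

lemma isBigO_sub_rev' {f : ℝ → ℝ} {f' s : ℝ} (hf : HasDerivAt f f' s) (hf' : f' ≠ 0) :
    (fun x => x - s) =O[𝓝 s] fun x => f x - f s := by
  have h := (HasDerivAtFilter.isTheta_sub hf hf').isBigO_symm
  have h2 : (𝓝 s ×ˢ pure s : Filter (ℝ × ℝ)) = map (fun y => (y, s)) (𝓝 s) := by
    rw [Filter.prod_pure]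
  rw [h2, isBigO_map] at h
  exact h

lemma sin_ne_of_deriv {h : ℝ → ℝ} {h' s : ℝ} (hd : HasDerivAt h h' s) (hne : h' ≠ 0) :
    ∀ᶠ x in 𝓝[≠] s, Real.sin (Real.pi * h x) ≠ 0 := by
  have hF : HasDerivAt (fun x => Real.sin (Real.pi * h x))
      (Real.cos (Real.pi * h s) * (Real.pi * h')) s := (hd.const_mul Real.pi).sin
  by_cases h0 : Real.sin (Real.pi * h s) = 0
  · have hc : Real.cos (Real.pi * h s) ≠ 0 := by
      intro hc
      have := Real.sin_sq_add_cos_sq (Real.pi * h s)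
      rw [h0, hc] at this; norm_num at this
    exact hF.eventually_ne (mul_ne_zero hc (mul_ne_zero Real.pi_ne_zero hne))
  · exact (hF.continuousAt.eventually_ne h0).filter_mono nhdsWithin_le_nhds

lemma cos_ne_of_deriv {h : ℝ → ℝ} {h' s : ℝ} (hd : HasDerivAt h h' s) (hne : h' ≠ 0) :
    ∀ᶠ x in 𝓝[≠] s, Real.cos (Real.pi * h x) ≠ 0 := by
  have h1 : HasDerivAt (fun x => h x + 1 / 2) h' s := hd.add_const _
  filter_upwards [sin_ne_of_deriv h1 hne] with x hx
  have : Real.pi * (h x + 1 / 2) = Real.pi * h x + Real.pi / 2 := by ring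
  rwa [this, Real.sin_add_pi_div_two] at hx

/-- The arithmetic data of a resonance. -/
structure Valid (ν m a b c : ℕ) : Prop where
  νpos : 1 ≤ ν
  modd : Odd m
  bodd : Odd b
  cpos : 1 ≤ c
  cop : Nat.Coprime a b
  eq : m * c = a + ν * b
  gap : 2 * c + ν ≤ 2 * a

namespace Valid

variable {ν m a b c : ℕ} (H : Valid ν m a b c)
include H

lemma bpos : 1 ≤ b := H.bodd.pos
lemma apos : 1 ≤ a := by have := H.gap; have := H.νpos; have := H.cpos; omega

end Valid

/-- the curve `β(x + ν) = m/2`. -/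
noncomputable def bet (ν m : ℕ) (x : ℝ) : ℝ := m / (2 * (x + ν))

lemma hasDerivAt_bet {ν m : ℕ} {x : ℝ} (hx : 0 < x) :
    HasDerivAt (bet ν m) (-(m : ℝ) / (2 * (x + ν) ^ 2)) x := by
  have hν : (0 : ℝ) ≤ ν := Nat.cast_nonneg _
  have h1 : HasDerivAt (fun x : ℝ => 2 * (x + ν)) 2 x := by
    simpa using ((hasDerivAt_id x).add_const (ν : ℝ)).const_mul 2
  have h2 := (hasDerivAt_const x (m : ℝ)).div h1 (by positivity)
  refine h2.congr_deriv ?_
  have : x + (ν : ℝ) ≠ 0 := by positivity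
  field_simp
  ring

section

variable {ν m a b c : ℕ}

/-- value of the curve at the rational point -/
lemma Valid.bet_eq (H : Valid ν m a b c) (j : ℕ) :
    bet (ν + 2 * c * j) (m + 2 * b * j) ((a : ℝ) / b) = b / (2 * c) := by
  have hb : (0 : ℝ) < b := by exact_mod_cast H.bpos
  have hc : (0 : ℝ) < c := by exact_mod_cast H.cpos
  have ha : (0 : ℝ) < a := by exact_mod_cast H.apos
  have hν : (0 : ℝ) < ν := by exact_mod_cast H.νpos
  have he : (m : ℝ) * c = a + ν * b := by exact_mod_cast H.eq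
  unfold bet
  have h1 : (a : ℝ) / b + ((ν + 2 * c * j : ℕ) : ℝ) = c * (m + 2 * b * j) / b := by
    push_cast
    rw [eq_div_iff hb.ne']
    field_simp
    linear_combination -he
  rw [h1]
  push_cast
  have : (0 : ℝ) < m + 2 * b * j := by
    have : (0:ℝ) < m := by exact_mod_cast H.modd.pos
    positivity
  field_simp

/-- the phase of the `n`-th numerator along the curve -/
lemma Valid.hasDerivAt_phase (H : Valid ν m a b c) (n : ℕ) :
    HasDerivAt (fun x => bet (ν + 2 * c) (m + 2 * b) x * (x + n))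
      (((m + 2 * b : ℕ) : ℝ) * ((ν + 2 * c : ℕ) - n) / (2 * ((a : ℝ) / b + (ν + 2 * c : ℕ)) ^ 2))
      ((a : ℝ) / b) := by
  have hb : (0 : ℝ) < b := by exact_mod_cast H.bpos
  have ha : (0 : ℝ) < a := by exact_mod_cast H.apos
  have hs : (0 : ℝ) < (a : ℝ) / b := by positivity
  have h1 := (hasDerivAt_bet (ν := ν + 2 * c) (m := m + 2 * b) hs).mul
    ((hasDerivAt_id ((a : ℝ) / b)).add_const (n : ℝ))
  refine h1.congr_deriv ?_
  unfold bet
  simp only [id]
  have : (a : ℝ) / b + ((ν + 2 * c : ℕ) : ℝ) ≠ 0 := by positivity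
  field_simp
  ring

/-- numerators with a zero -/
lemma Valid.num_zero (H : Valid ν m a b c) (j : ℕ) :
    Real.cos (Real.pi * (bet (ν + 2 * c) (m + 2 * b) ((a : ℝ) / b) *
      ((a : ℝ) / b + ((ν + 2 * c * j : ℕ) : ℝ)))) = 0 := by
  have hb : (0 : ℝ) < b := by exact_mod_cast H.bpos
  have hc : (0 : ℝ) < c := by exact_mod_cast H.cpos
  have he : (m : ℝ) * c = a + ν * b := by exact_mod_cast H.eq
  have h1 := H.bet_eq 1
  rw [mul_one, mul_one] at h1
  rw [h1]
  obtain ⟨l, hl⟩ := H.modd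
  have hl' : (m : ℝ) = 2 * l + 1 := by exact_mod_cast hl
  have h2 : Real.pi * ((b : ℝ) / (2 * c) * ((a : ℝ) / b + ((ν + 2 * c * j : ℕ) : ℝ)))
      = ((l + b * j : ℕ) : ℝ) * Real.pi + Real.pi / 2 := by
    have h3 : (b : ℝ) / (2 * c) * ((a : ℝ) / b + ((ν + 2 * c * j : ℕ) : ℝ))
        = (m + 2 * b * j) / 2 := by
      push_cast
      field_simp
      linear_combination -he
    rw [h3, hl']
    push_cast
    ring
  rw [h2, Real.cos_add_pi_div_two, Real.sin_nat_mul_pi, neg_zero]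

lemma Valid.den_ne (H : Valid ν m a b c) {n : ℕ} (hn : ¬ 2 * a ∣ n) :
    Real.sin (Real.pi * (n / (2 * ((a : ℝ) / b)))) ≠ 0 := by
  have hb : (0 : ℝ) < b := by exact_mod_cast H.bpos
  have ha : (0 : ℝ) < a := by exact_mod_cast H.apos
  intro h0
  rw [Real.sin_eq_zero_iff] at h0
  obtain ⟨k, hk⟩ := h0
  apply hn
  have h1 : (k : ℝ) * (2 * a) = n * b := by
    have : (k : ℝ) = n / (2 * ((a : ℝ) / b)) := by
      have h := Real.pi_ne_zero
      have h' : Real.pi * (k : ℝ) = Real.pi * (n / (2 * ((a : ℝ) / b))) := by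
        rw [← hk]; ring
      exact mul_left_cancel₀ h h'
    rw [this]
    field_simp
  have h2 : (2 * a : ℤ) ∣ (n : ℤ) * b := ⟨k, by
    have : (n : ℤ) * b = k * (2 * a) := by exact_mod_cast h1.symm
    rw [this]; ring⟩
  have h3 : 2 * a ∣ n * b := by exact_mod_cast h2
  have h4 : Nat.Coprime (2 * a) b := Nat.Coprime.mul_left
    (Nat.coprime_two_left.mpr H.bodd) H.cop
  exact h4.dvd_of_dvd_mul_right h3

lemma hasDerivAt_den {s : ℝ} (hs : 0 < s) (n : ℕ) :
    HasDerivAt (fun x : ℝ => (n : ℝ) / (2 * x)) (-(n : ℝ) / (2 * s ^ 2)) s := by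
  have h1 : HasDerivAt (fun x : ℝ => 2 * x) 2 s := by
    simpa using (hasDerivAt_id s).const_mul 2
  have h2 := (hasDerivAt_const s (n : ℝ)).div h1 (by positivity)
  refine h2.congr_deriv ?_
  field_simp
  ring

/-- the positions of the zeros of the numerator -/
def posA (ν c J : ℕ) : Finset ℕ := (Finset.range (J + 1)).image (fun j => ν + 2 * c * j)

lemma Valid.card_posA (H : Valid ν m a b c) (J : ℕ) : (posA ν c J).card = J + 1 := by
  unfold posA
  rw [Finset.card_image_of_injective, Finset.card_range]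
  intro i j hij
  have hc := H.cpos
  have : 2 * c * i = 2 * c * j := by simpa using hij
  exact Nat.eq_of_mul_eq_mul_left (by omega) this

lemma Valid.posA_subset (H : Valid ν m a b c) {N : ℕ} (hN : ν ≤ N) :
    posA ν c (N / (2 * a)) ⊆ Finset.Icc 1 N := by
  intro n hn
  unfold posA at hn
  rw [Finset.mem_image] at hn
  obtain ⟨j, hj, rfl⟩ := hn
  rw [Finset.mem_range] at hj
  rw [Finset.mem_Icc]
  have hν := H.νpos
  refine ⟨by omega, ?_⟩
  rcases Nat.eq_zero_or_pos j with h0 | h0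
  · subst h0; simpa using hN
  · have h1 : 2 * a * j ≤ N := by
      calc 2 * a * j ≤ 2 * a * (N / (2 * a)) := Nat.mul_le_mul_left _ (by omega)
        _ ≤ N := Nat.mul_div_le _ _
    have h2 : (2 * c + ν) * j ≤ 2 * a * j := Nat.mul_le_mul_right _ H.gap
    have h3 : ν ≤ ν * j := Nat.le_mul_of_pos_right _ h0
    calc ν + 2 * c * j ≤ ν * j + 2 * c * j := by omega
      _ = (2 * c + ν) * j := by ring
      _ ≤ _ := h2.trans h1

lemma Valid.tendsto_R (H : Valid ν m a b c) {N : ℕ} (hN : ν ≤ N) :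
    Tendsto (fun x => R N x (bet (ν + 2 * c) (m + 2 * b) x)) (𝓝[≠] ((a : ℝ) / b)) (𝓝 0) := by
  classical
  have hb : (0 : ℝ) < b := by exact_mod_cast H.bpos
  have ha : (0 : ℝ) < a := by exact_mod_cast H.apos
  set s : ℝ := (a : ℝ) / b with hs
  have hs0 : 0 < s := by positivity
  set J : ℕ := N / (2 * a) with hJ
  let z : ℕ → ℕ := fun n => if n ∈ posA ν c J then 1 else 0
  let w : ℕ → ℕ := fun n => if 2 * a ∣ n then 1 else 0
  have hle : 𝓝[≠] s ≤ 𝓝 s := nhdsWithin_le_nhds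
  -- numerators
  have hnum : ∀ n ∈ Finset.Icc 1 N,
      (fun x => nm x (bet (ν + 2 * c) (m + 2 * b) x) n) =O[𝓝[≠] s] (fun x => (x - s) ^ z n) := by
    intro n _
    by_cases hn : n ∈ posA ν c J
    · have hz : z n = 1 := if_pos hn
      simp only [hz, pow_one]
      obtain ⟨j, _, rfl⟩ := Finset.mem_image.mp hn
      have hd := ((H.hasDerivAt_phase (ν + 2 * c * j)).const_mul Real.pi).cos
      have h1 := hd.isBigO_sub
      have h2 := H.num_zero j
      simp only [← hs] at h1 h2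
      rw [h2] at h1
      refine IsBigO.mono ?_ hle
      refine IsBigO.congr_left (f₁ := fun x => |Real.cos (Real.pi *
        (bet (ν + 2 * c) (m + 2 * b) x * (x + ((ν + 2 * c * j : ℕ) : ℝ)))) - 0|) ?_ ?_
      · exact h1.abs_left
      · intro x; simp [nm]
    · have hz : z n = 0 := if_neg hn
      simp only [hz, pow_zero]
      refine IsBigO.of_bound 1 (Eventually.of_forall (fun x => ?_))
      simp only [nm, norm_one, mul_one, Real.norm_eq_abs, abs_abs]
      exact Real.abs_cos_le_one _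
  -- denominators
  have hden : ∀ n ∈ Finset.Icc 1 N,
      (fun x => (dn x n)⁻¹) =O[𝓝[≠] s] (fun x => ((x - s)⁻¹) ^ w n) := by
    intro n hn
    have hn1 : 1 ≤ n := (Finset.mem_Icc.mp hn).1
    have hd := ((hasDerivAt_den hs0 n).const_mul Real.pi).sin
    by_cases hdv : 2 * a ∣ n
    · have hw : w n = 1 := if_pos hdv
      simp only [hw, pow_one]
      have hzero : Real.sin (Real.pi * (n / (2 * s))) = 0 := by
        obtain ⟨k, rfl⟩ := hdv
        have : Real.pi * (((2 * a * k : ℕ) : ℝ) / (2 * s)) = ((b * k : ℕ) : ℝ) * Real.pi := by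
          rw [hs]; push_cast; field_simp
        rw [this]; exact Real.sin_nat_mul_pi _
      have hcos : Real.cos (Real.pi * (n / (2 * s))) ≠ 0 := by
        intro hc
        have := Real.sin_sq_add_cos_sq (Real.pi * (n / (2 * s)))
        rw [hzero, hc] at this; norm_num at this
      have hn0 : (0 : ℝ) < n := by exact_mod_cast hn1
      have hne : Real.cos (Real.pi * (n / (2 * s))) * (Real.pi * (-(n : ℝ) / (2 * s ^ 2))) ≠ 0 := by
        refine mul_ne_zero hcos (mul_ne_zero Real.pi_ne_zero ?_)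
        have : (0 : ℝ) < n / (2 * s ^ 2) := by positivity
        rw [neg_div]
        exact (neg_neg_of_pos this).ne
      have h1 := isBigO_sub_rev' hd hne
      rw [hzero] at h1
      have h2 : (fun x => x - s) =O[𝓝[≠] s] (fun x => dn x n) := by
        refine IsBigO.mono ?_ hle
        refine IsBigO.congr_right (g₁ := fun x => |Real.sin (Real.pi * ((n : ℝ) / (2 * x))) - 0|) ?_ ?_
        · exact h1.abs_right
        · intro x; simp [dn]
      refine h2.inv_rev ?_
      filter_upwards [self_mem_nhdsWithin] with x hx h0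
      exact absurd (sub_eq_zero.mp h0) hx
    · have hw : w n = 0 := if_neg hdv
      simp only [hw, pow_zero]
      have hne := H.den_ne hdv
      rw [← hs] at hne
      have hc : ContinuousAt (fun x => (dn x n)⁻¹) s := by
        refine ContinuousAt.inv₀ ?_ ?_
        · exact hd.continuousAt.abs
        · simpa [dn] using hne
      exact (hc.tendsto.isBigO_one ℝ).mono hle
  have hprod : (fun x => R N x (bet (ν + 2 * c) (m + 2 * b) x)) =O[𝓝[≠] s]
      (fun x => (∏ n ∈ Finset.Icc 1 N, (x - s) ^ z n) * ∏ n ∈ Finset.Icc 1 N, ((x - s)⁻¹) ^ w n) := by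
    have h1 := (IsBigO.finsetProd hnum).mul (IsBigO.finsetProd hden)
    refine h1.congr_left (fun x => ?_)
    rw [← Finset.prod_mul_distrib]
    rfl
  have hZ : ∑ n ∈ Finset.Icc 1 N, z n = J + 1 := by
    have : ∑ n ∈ Finset.Icc 1 N, z n = ((Finset.Icc 1 N).filter (· ∈ posA ν c J)).card := by
      rw [Finset.card_filter]
    rw [this, Finset.filter_mem_eq_inter, Finset.inter_eq_right.mpr (H.posA_subset hN), H.card_posA]
  have hW : ∑ n ∈ Finset.Icc 1 N, w n = J := by
    have : ∑ n ∈ Finset.Icc 1 N, w n = ((Finset.Icc 1 N).filter (2 * a ∣ ·)).card := by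
      rw [Finset.card_filter]
    rw [this, hJ, ← Nat.Ioc_filter_dvd_card_eq_div N (2 * a)]
    rfl
  have hlim : Tendsto (fun x => (∏ n ∈ Finset.Icc 1 N, (x - s) ^ z n) *
      ∏ n ∈ Finset.Icc 1 N, ((x - s)⁻¹) ^ w n) (𝓝[≠] s) (𝓝 0) := by
    have h1 : Tendsto (fun x : ℝ => x - s) (𝓝[≠] s) (𝓝 0) := by
      have : Tendsto (fun x : ℝ => x - s) (𝓝 s) (𝓝 (s - s)) := tendsto_id.sub_const s
      rw [sub_self] at this
      exact this.mono_left hle
    refine h1.congr' ?_
    filter_upwards [self_mem_nhdsWithin] with x hx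
    have hx' : x - s ≠ 0 := sub_ne_zero.mpr hx
    rw [Finset.prod_pow_eq_pow_sum, Finset.prod_pow_eq_pow_sum, hZ, hW, pow_succ, mul_comm,
      ← mul_assoc, ← mul_pow, inv_mul_cancel₀ hx', one_pow, one_mul]
  exact hprod.trans_tendsto hlim

/-- All the properties needed at one step hold near the resonant point. -/
lemma Valid.eventually (H : Valid ν m a b c) {ε : ℝ} (hε : 0 < ε) :
    ∀ᶠ x in 𝓝[≠] ((a : ℝ) / b),
      (∀ N, ν ≤ N → N < ν + 2 * c → R N x (bet (ν + 2 * c) (m + 2 * b) x) < ε) ∧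
      (∀ n, 1 ≤ n → n < ν + 2 * c →
        Real.cos (Real.pi * (bet (ν + 2 * c) (m + 2 * b) x * (x + n))) ≠ 0 ∧
        Real.sin (Real.pi * ((n : ℝ) / (2 * x))) ≠ 0 ∧
        Real.sin (Real.pi * (n * bet (ν + 2 * c) (m + 2 * b) x)) ≠ 0) ∧
      |bet (ν + 2 * c) (m + 2 * b) x - bet ν m x| < ε ∧
      0 < x := by
  have hb : (0 : ℝ) < b := by exact_mod_cast H.bpos
  have ha : (0 : ℝ) < a := by exact_mod_cast H.apos
  set s : ℝ := (a : ℝ) / b with hs
  have hs0 : 0 < s := by positivity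
  have hle : 𝓝[≠] s ≤ 𝓝 s := nhdsWithin_le_nhds
  have h1 : ∀ᶠ x in 𝓝[≠] s, ∀ N ∈ Finset.Ico ν (ν + 2 * c),
      R N x (bet (ν + 2 * c) (m + 2 * b) x) < ε := by
    rw [Finset.eventually_all]
    intro N hN
    exact (H.tendsto_R (Finset.mem_Ico.mp hN).1).eventually_lt_const hε
  have h2 : ∀ᶠ x in 𝓝[≠] s, ∀ n ∈ Finset.Ico 1 (ν + 2 * c),
      Real.cos (Real.pi * (bet (ν + 2 * c) (m + 2 * b) x * (x + n))) ≠ 0 ∧
        Real.sin (Real.pi * ((n : ℝ) / (2 * x))) ≠ 0 ∧
        Real.sin (Real.pi * (n * bet (ν + 2 * c) (m + 2 * b) x)) ≠ 0 := by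
    rw [Finset.eventually_all]
    intro n hn
    rw [Finset.mem_Ico] at hn
    have hn0 : (0 : ℝ) < n := by exact_mod_cast hn.1
    have hm0 : (0 : ℝ) < ((m + 2 * b : ℕ) : ℝ) := by
      have := H.bpos
      exact_mod_cast (by omega : 0 < m + 2 * b)
    have hlt : (n : ℝ) < ((ν + 2 * c : ℕ) : ℝ) := by exact_mod_cast hn.2
    refine (cos_ne_of_deriv (H.hasDerivAt_phase n) ?_).and
      ((sin_ne_of_deriv (hasDerivAt_den hs0 n) ?_).and
        (sin_ne_of_deriv (h := fun x => n * bet (ν + 2 * c) (m + 2 * b) x)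
          ((hasDerivAt_bet hs0).const_mul (n : ℝ)) ?_))
    · have : (0 : ℝ) < ((m + 2 * b : ℕ) : ℝ) * (((ν + 2 * c : ℕ) : ℝ) - n) /
          (2 * ((a : ℝ) / b + ((ν + 2 * c : ℕ) : ℝ)) ^ 2) := by
        have : (0 : ℝ) < ((ν + 2 * c : ℕ) : ℝ) - n := by linarith
        positivity
      exact this.ne'
    · have : (0 : ℝ) < n / (2 * s ^ 2) := by positivity
      rw [neg_div]; exact (neg_neg_of_pos this).ne
    · refine mul_ne_zero hn0.ne' ?_
      have : (0 : ℝ) < ((m + 2 * b : ℕ) : ℝ) / (2 * (s + ((ν + 2 * c : ℕ) : ℝ)) ^ 2) := by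
        positivity
      rw [neg_div]; exact (neg_neg_of_pos this).ne
  have h3 : ∀ᶠ x in 𝓝[≠] s, |bet (ν + 2 * c) (m + 2 * b) x - bet ν m x| < ε := by
    have hc : ContinuousAt (fun x => |bet (ν + 2 * c) (m + 2 * b) x - bet ν m x|) s :=
      ((hasDerivAt_bet hs0).continuousAt.sub (hasDerivAt_bet hs0).continuousAt).abs
    have hv : |bet (ν + 2 * c) (m + 2 * b) s - bet ν m s| = 0 := by
      have e1 := H.bet_eq 1
      have e0 := H.bet_eq 0
      rw [mul_one, mul_one] at e1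
      rw [mul_zero, mul_zero, add_zero, add_zero] at e0
      rw [hs, e1, e0, sub_self, abs_zero]
    have := hc.tendsto
    rw [hv] at this
    exact (this.mono_left hle).eventually_lt_const hε
  have h4 : ∀ᶠ x in 𝓝[≠] s, 0 < x := (lt_mem_nhds hs0).filter_mono hle
  filter_upwards [h1, h2, h3, h4] with x a1 a2 a3 a4
  exact ⟨fun N hN1 hN2 => a1 N (Finset.mem_Ico.mpr ⟨hN1, hN2⟩),
    fun n hn1 hn2 => a2 n (Finset.mem_Ico.mpr ⟨hn1, hn2⟩), a3, a4⟩

end

end Helper62HRT
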