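import Mathlib

/-!
MP_0ef687_an: definitions, symmetries, reduction to sequences.
-/

namespace Helper62HRT

open Filter Topology

/-- `e(t) = exp(2 π i t)`. -/
noncomputable def e (t : ℝ) : ℂ := Complex.exp ((2 * Real.pi * t : ℝ) * Complex.I)

/-- Equation (1), `f(x+1)(1+e(αx)) = f(x)(1+e(βx))`, holds along the orbit of `x0`,
that is, for every `x = x0 + N`, `N ∈ ℤ`. -/
def HoldsAlong (α β x0 : ℝ) (f : ℝ → ℂ) : Prop :=
  ∀ N : ℤ, f (x0 + N + 1) * (1 + e (α * (x0 + N))) = f (x0 + N) * (1 + e (β * (x0 + N)))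

/-- The answer to Q1 for the pair `(α, β)` is yes. -/
def Yes (α β : ℝ) : Prop :=
  ∃ x0 ∈ Set.Icc (0 : ℝ) 1, ∃ f : ℝ → ℂ, HoldsAlong α β x0 f ∧
    {N : ℤ | f (x0 + N) ≠ 0}.Infinite ∧
    Tendsto (fun N : ℤ => f (x0 + N)) cofinite (𝓝 0)

lemma e_add (s t : ℝ) : e (s + t) = e s * e t := by
  unfold e
  rw [← Complex.exp_add]
  congr 1
  push_cast
  ring

lemma e_zero : e 0 = 1 := by simp [e]

lemma e_neg_mul (t : ℝ) : e t * e (-t) = 1 := by
  rw [← e_add]; simp [e_zero]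

lemma norm_e (t : ℝ) : ‖e t‖ = 1 := by
  unfold e
  exact Complex.norm_exp_ofReal_mul_I _

lemma e_ne_zero (t : ℝ) : e t ≠ 0 := by
  intro h
  have := norm_e t
  rw [h] at this
  simp at this

lemma norm_one_add_e (t : ℝ) : ‖1 + e t‖ = 2 * |Real.cos (Real.pi * t)| := by
  have h : (1 : ℂ) + e t = e (t / 2) * (2 * Real.cos (Real.pi * t) : ℝ) := by
    have h1 : e t = e (t / 2) * e (t / 2) := by rw [← e_add]; congr 1; ring
    have h2 : (1 : ℂ) = e (t / 2) * e (-(t / 2)) := (e_neg_mul _).symm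
    have h3 : ((2 * Real.cos (Real.pi * t) : ℝ) : ℂ) = e (-(t / 2)) + e (t / 2) := by
      unfold e
      push_cast
      rw [Complex.two_cos, add_comm]
      congr 1 <;> congr 1 <;> ring
    rw [h3, mul_add, ← h1, ← h2]
  rw [h, norm_mul, norm_e, one_mul, Complex.norm_real, Real.norm_eq_abs, abs_mul]
  norm_num

/-- Sequences on an arbitrary orbit give a positive answer. -/
lemma yes_of_seq {α β : ℝ} (x : ℝ) (u : ℤ → ℂ)
    (h : ∀ N : ℤ, u (N + 1) * (1 + e (α * (x + N))) = u N * (1 + e (β * (x + N))))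
    (hinf : {N : ℤ | u N ≠ 0}.Infinite) (hlim : Tendsto u cofinite (𝓝 0)) : Yes α β := by
  set k : ℤ := ⌊x⌋ with hk
  refine ⟨Int.fract x, ⟨Int.fract_nonneg x, (Int.fract_lt_one x).le⟩,
    fun y => u ⌊y - x⌋, ?_, ?_, ?_⟩
  · intro N
    have e1 : Int.fract x + N = x + ((N - k : ℤ) : ℝ) := by
      push_cast; rw [hk]; unfold Int.fract; ring
    have e2 : ⌊Int.fract x + (N : ℝ) + 1 - x⌋ = (N - k) + 1 := by
      rw [e1]
      have : x + ((N - k : ℤ) : ℝ) + 1 - x = (((N - k) + 1 : ℤ) : ℝ) := by push_cast; ring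
      rw [this, Int.floor_intCast]
    have e3 : ⌊Int.fract x + (N : ℝ) - x⌋ = N - k := by
      rw [e1]
      have : x + ((N - k : ℤ) : ℝ) - x = ((N - k : ℤ) : ℝ) := by ring
      rw [this, Int.floor_intCast]
    show u ⌊Int.fract x + (N : ℝ) + 1 - x⌋ * _ = u ⌊Int.fract x + (N : ℝ) - x⌋ * _
    rw [e2, e3, e1]
    exact h (N - k)
  · have hset : {N : ℤ | u ⌊Int.fract x + (N : ℝ) - x⌋ ≠ 0} = (fun N => N + k) '' {N : ℤ | u N ≠ 0} := by
      ext N
      have e3 : ⌊Int.fract x + (N : ℝ) - x⌋ = N - k := by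
        have : Int.fract x + (N : ℝ) - x = ((N - k : ℤ) : ℝ) := by
          push_cast; rw [hk]; unfold Int.fract; ring
        rw [this, Int.floor_intCast]
      simp only [Set.mem_ofPred_eq, Set.mem_image, e3]
      constructor
      · intro hN
        exact ⟨N - k, hN, by ring⟩
      · rintro ⟨M, hM, rfl⟩
        simpa using hM
    show {N : ℤ | u ⌊Int.fract x + (N : ℝ) - x⌋ ≠ 0}.Infinite
    rw [hset]
    exact hinf.image (fun a _ b _ hab => by simpa using hab)
  · have hfun : (fun N : ℤ => u ⌊Int.fract x + (N : ℝ) - x⌋) = fun N => u (N - k) := by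
      funext N
      have : Int.fract x + (N : ℝ) - x = ((N - k : ℤ) : ℝ) := by
        push_cast; rw [hk]; unfold Int.fract; ring
      rw [this, Int.floor_intCast]
    show Tendsto (fun N : ℤ => u ⌊Int.fract x + (N : ℝ) - x⌋) cofinite (𝓝 0)
    rw [hfun]
    exact hlim.comp ((sub_left_injective (b := k)).tendsto_cofinite)

/-- multiplying by unimodular constants. -/
lemma yes_of_unimodular {α β α' β' : ℝ} (c : ℝ → ℤ → ℂ)
    (hc : ∀ x N, ‖c x N‖ = 1)
    (hrel : ∀ (x : ℝ) (N : ℤ) (p q : ℂ),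
      p * (1 + e (α * (x + N))) = q * (1 + e (β * (x + N))) →
      (p * c x (N + 1)) * (1 + e (α' * (x + N))) = (q * c x N) * (1 + e (β' * (x + N))))
    (h : Yes α β) : Yes α' β' := by
  obtain ⟨x0, _, f, hf, hinf, hlim⟩ := h
  refine yes_of_seq x0 (fun N => f (x0 + N) * c x0 N) ?_ ?_ ?_
  · intro N
    have := hrel x0 N _ _ (hf N)
    have h2 : x0 + ((N + 1 : ℤ) : ℝ) = x0 + N + 1 := by push_cast; ring
    simp only [h2]
    exact this
  · have : {N : ℤ | f (x0 + N) * c x0 N ≠ 0} = {N : ℤ | f (x0 + N) ≠ 0} := by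
      ext N
      have hne : c x0 N ≠ 0 := by
        intro h0
        have := hc x0 N
        rw [h0] at this; simp at this
      simp [hne]
    rw [this]; exact hinf
  · rw [tendsto_zero_iff_norm_tendsto_zero] at hlim ⊢
    refine hlim.congr (fun N => ?_)
    rw [norm_mul, hc, mul_one]

lemma Yes.neg_left {α β : ℝ} (h : Yes α β) : Yes (-α) β := by
  refine yes_of_unimodular (fun x N => e (α * (N * x + N * (N - 1) / 2)))
    (fun x N => norm_e _) ?_ h
  intro x N p q hpq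
  have h1 : e (α * (((N + 1 : ℤ) : ℝ) * x + ((N + 1 : ℤ) : ℝ) * (((N + 1 : ℤ) : ℝ) - 1) / 2))
      = e (α * (N * x + N * (N - 1) / 2)) * e (α * (x + N)) := by
    rw [← e_add]; congr 1; push_cast; ring
  have h2 : e (-α * (x + N)) = e (-(α * (x + N))) := by congr 1; ring
  rw [h1, h2]
  have h3 := e_neg_mul (α * (x + N))
  calc p * (e (α * (N * x + N * (N - 1) / 2)) * e (α * (x + N))) * (1 + e (-(α * (x + N))))
      = e (α * (N * x + N * (N - 1) / 2)) *
        (p * (e (α * (x + N)) + e (α * (x + N)) * e (-(α * (x + N))))) := by ring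
    _ = e (α * (N * x + N * (N - 1) / 2)) * (p * (1 + e (α * (x + N)))) := by
        rw [h3]; ring
    _ = _ := by rw [hpq]; ring

lemma Yes.neg_right {α β : ℝ} (h : Yes α β) : Yes α (-β) := by
  refine yes_of_unimodular (fun x N => e (-β * (N * x + N * (N - 1) / 2)))
    (fun x N => norm_e _) ?_ h
  intro x N p q hpq
  have h1 : e (-β * (((N + 1 : ℤ) : ℝ) * x + ((N + 1 : ℤ) : ℝ) * (((N + 1 : ℤ) : ℝ) - 1) / 2))
      = e (-β * (N * x + N * (N - 1) / 2)) * e (-(β * (x + N))) := by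
    rw [← e_add]; congr 1; push_cast; ring
  have h2 : e (-β * (x + N)) = e (-(β * (x + N))) := by congr 1; ring
  rw [h1, h2]
  have h3 := e_neg_mul (β * (x + N))
  calc p * (e (-β * (N * x + N * (N - 1) / 2)) * e (-(β * (x + N)))) * (1 + e (α * (x + N)))
      = e (-β * (N * x + N * (N - 1) / 2)) * e (-(β * (x + N))) *
        (p * (1 + e (α * (x + N)))) := by ring
    _ = e (-β * (N * x + N * (N - 1) / 2)) *
        (q * (e (-(β * (x + N))) + e (β * (x + N)) * e (-(β * (x + N))))) := by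
        rw [hpq]; ring
    _ = _ := by rw [h3]; ring

lemma Yes.swap {α β : ℝ} (h : Yes α β) : Yes (-β) (-α) := by
  obtain ⟨x0, _, f, hf, hinf, hlim⟩ := h
  have hcast : ∀ N : ℤ, x0 + ((1 - N : ℤ) : ℝ) = x0 + 1 - N := fun N => by push_cast; ring
  refine yes_of_seq (-x0) (fun N => f (x0 + ((1 - N : ℤ) : ℝ))) ?_ ?_ ?_
  · intro N
    have h1 := hf (-N)
    have e1 : x0 + ((1 - (N + 1) : ℤ) : ℝ) = x0 + ((-N : ℤ) : ℝ) := by push_cast; ring
    have e2 : x0 + ((1 - N : ℤ) : ℝ) = x0 + ((-N : ℤ) : ℝ) + 1 := by push_cast; ring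
    have e3 : -β * (-x0 + (N : ℝ)) = β * (x0 + ((-N : ℤ) : ℝ)) := by push_cast; ring
    have e4 : -α * (-x0 + (N : ℝ)) = α * (x0 + ((-N : ℤ) : ℝ)) := by push_cast; ring
    show f (x0 + ((1 - (N + 1) : ℤ) : ℝ)) * _ = f (x0 + ((1 - N : ℤ) : ℝ)) * _
    rw [e1, e2, e3, e4]
    exact h1.symm
  · have hset : {N : ℤ | f (x0 + ((1 - N : ℤ) : ℝ)) ≠ 0} = (fun N => 1 - N) '' {N : ℤ | f (x0 + N) ≠ 0} := by
      ext N
      simp only [Set.mem_ofPred_eq, Set.mem_image]
      constructor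
      · intro hN
        exact ⟨1 - N, hN, by ring⟩
      · rintro ⟨M, hM, rfl⟩
        have : (1 - (1 - M) : ℤ) = M := by ring
        rw [this]; exact hM
    rw [hset]
    exact hinf.image (fun a _ b _ hab => by simpa using hab)
  · exact hlim.comp (Function.Injective.tendsto_cofinite (f := fun N : ℤ => 1 - N)
      (fun a b hab => by simpa using hab))

/-- swapping the two frequencies. -/
lemma Yes.swap' {α β : ℝ} (h : Yes α β) : Yes β α := by
  have h1 := h.swap
  have h2 := h1.neg_left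
  have h3 := h2.neg_right
  simpa using h3

lemma Yes.abs {α β α' β' : ℝ} (h : Yes α β) (hα : |α'| = |α|) (hβ : |β'| = |β|) :
    Yes α' β' := by
  rcases abs_eq_abs.mp hα with h1 | h1 <;> rcases abs_eq_abs.mp hβ with h2 | h2
  · rw [h1, h2]; exact h
  · rw [h1, h2]; exact h.neg_right
  · rw [h1, h2]; exact h.neg_left
  · rw [h1, h2]; exact h.neg_left.neg_right

end Helper62HRT
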