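import Pool.Agent.Helper62.HRT.Nested

/-!
MP_0ef687_an: for a comeagre set of `α` the set of `β` with a positive answer is dense.
-/

namespace Helper62HRT

open Filter Topology

/-- the conclusion of `Valid.eventually` -/
def StepAt (ν m b c : ℕ) (ε x : ℝ) : Prop :=
  (∀ N, ν ≤ N → N < ν + 2 * c → R N x (bet (ν + 2 * c) (m + 2 * b) x) < ε) ∧
      (∀ n, 1 ≤ n → n < ν + 2 * c →
        Real.cos (Real.pi * (bet (ν + 2 * c) (m + 2 * b) x * (x + n))) ≠ 0 ∧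
        Real.sin (Real.pi * ((n : ℝ) / (2 * x))) ≠ 0 ∧
        Real.sin (Real.pi * (n * bet (ν + 2 * c) (m + 2 * b) x)) ≠ 0) ∧
      |bet (ν + 2 * c) (m + 2 * b) x - bet ν m x| < ε ∧
      0 < x

def P1 (ν m k : ℕ) (p : ℝ) : Prop :=
  ∃ a b c, Valid ν m a b c ∧ StepAt ν m b c (1 / ((k : ℝ) + 1)) (1 / (2 * p))

def P2 (ν m k : ℕ) (p : ℝ) : Prop :=
  ∃ a b c, Valid ν m a b c ∧
    StepAt ν m b c (1 / ((k : ℝ) + 1)) (((m + 2 * b : ℕ) : ℝ) / (2 * p) - ((ν + 2 * c : ℕ) : ℝ)) ∧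
    |(((m + 2 * b : ℕ) : ℝ) / (2 * p) - ((ν + 2 * c : ℕ) : ℝ)) - ((m : ℝ) / (2 * p) - ν)| <
      1 / ((k : ℝ) + 1)

def P3 (x₀ : ℚ) (k : ℕ) (p : ℝ) : Prop :=
  ∃ ν m : ℕ, 1 ≤ ν ∧ Odd m ∧ (ν : ℝ) < (m - 1) / (2 * p) ∧
    |(m : ℝ) / (2 * p) - ν - x₀| < 1 / ((k : ℝ) + 1)

lemma hasDerivAt_inv2 {s : ℝ} (hs : s ≠ 0) (M K : ℝ) :
    HasDerivAt (fun x : ℝ => M / (2 * x) - K) (-M / (2 * s ^ 2)) s := by
  have h1 : HasDerivAt (fun x : ℝ => 2 * x) 2 s := by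
    simpa using (hasDerivAt_id s).const_mul 2
  have h2 := ((hasDerivAt_const s M).div h1 (by simpa using hs)).sub_const K
  refine h2.congr_deriv ?_
  field_simp
  ring

lemma exists_odd_approx {x p₁ δ : ℝ} (hx : 0 < x) (hp : 0 < p₁) (hδ : 0 < δ) :
    ∃ ν m : ℕ, 1 ≤ ν ∧ Odd m ∧ |(m : ℝ) / (2 * (x + ν)) - p₁| < δ := by
  obtain ⟨n, hn⟩ := exists_nat_gt (1 / δ)
  refine ⟨n + 1, 2 * ⌊p₁ * (x + (n + 1 : ℕ))⌋₊ + 1, by omega, ⟨_, rfl⟩, ?_⟩
  have hpos : (0 : ℝ) < x + ((n + 1 : ℕ) : ℝ) := by positivity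
  have h1 : (⌊p₁ * (x + (n + 1 : ℕ))⌋₊ : ℝ) ≤ p₁ * (x + (n + 1 : ℕ)) :=
    Nat.floor_le (by positivity)
  have h2 : p₁ * (x + (n + 1 : ℕ)) < ⌊p₁ * (x + (n + 1 : ℕ))⌋₊ + 1 := Nat.lt_floor_add_one _
  have h3 : |((2 * ⌊p₁ * (x + (n + 1 : ℕ))⌋₊ + 1 : ℕ) : ℝ) - p₁ * (2 * (x + (n + 1 : ℕ)))| ≤ 1 := by
    rw [abs_le]; push_cast at h1 h2 ⊢; constructor <;> linarith
  have h4 : ((2 * ⌊p₁ * (x + (n + 1 : ℕ))⌋₊ + 1 : ℕ) : ℝ) / (2 * (x + (n + 1 : ℕ))) - p₁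
      = (((2 * ⌊p₁ * (x + (n + 1 : ℕ))⌋₊ + 1 : ℕ) : ℝ) - p₁ * (2 * (x + (n + 1 : ℕ)))) /
        (2 * (x + (n + 1 : ℕ))) := by
    field_simp
  rw [h4, abs_div, abs_of_pos (by positivity : (0 : ℝ) < 2 * (x + (n + 1 : ℕ))),
    div_lt_iff₀ (by positivity)]
  have h5 : 1 < δ * n := by
    rw [div_lt_iff₀ hδ] at hn; linarith
  have h6 : (n : ℝ) < 2 * (x + (n + 1 : ℕ)) := by push_cast; nlinarith [Nat.cast_nonneg (α := ℝ) n]
  nlinarith

lemma res1 {ν m : ℕ} (hν : 1 ≤ ν) (hm : Odd m) (k : ℕ) :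
    {α : ℝ | α ≠ 0 → 0 < |α| → |α| < ((m : ℝ) - 1) / (2 * (ν : ℝ)) → P1 ν m k |α|} ∈ residual ℝ := by
  refine residual_of_near ?_
  intro p₁ hp₁ _ hhi δ hδ
  have hνR : (0 : ℝ) < ν := by exact_mod_cast hν
  have hx₁ : 0 < 1 / (2 * p₁) := by positivity
  have hx : (ν : ℝ) < (m - 1) * (1 / (2 * p₁)) := by
    rw [lt_div_iff₀ (by positivity)] at hhi
    rw [mul_one_div, lt_div_iff₀ (by positivity)]
    linarith
  have hc : ContinuousAt (fun x : ℝ => 1 / (2 * x) - 0) (1 / (2 * p₁)) :=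
    (hasDerivAt_inv2 hx₁.ne' 1 0).continuousAt
  have hval : 1 / (2 * (1 / (2 * p₁))) - 0 = p₁ := by field_simp; ring
  obtain ⟨δ', hδ', hball⟩ := Metric.continuousAt_iff.mp hc δ hδ
  obtain ⟨a, b, c, H, hab⟩ := exists_valid hν hm hx₁ hx hδ'
  have hb : (0 : ℝ) < b := by exact_mod_cast H.bpos
  have ha : (0 : ℝ) < a := by exact_mod_cast H.apos
  have hs : (0 : ℝ) < (a : ℝ) / b := by positivity
  have h1 := hball (x := (a : ℝ) / b) (by rw [Real.dist_eq]; exact hab)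
  rw [hval, Real.dist_eq] at h1
  refine ⟨1 / (2 * ((a : ℝ) / b)) - 0, h1, ?_⟩
  set q : ℝ := 1 / (2 * ((a : ℝ) / b)) - 0 with hq
  have hq0 : 0 < q := by rw [hq, sub_zero]; positivity
  have hd := hasDerivAt_inv2 hq0.ne' 1 0
  have hne : -(1 : ℝ) / (2 * q ^ 2) ≠ 0 := by
    have : (0 : ℝ) < 1 / (2 * q ^ 2) := by positivity
    rw [neg_div]; exact (neg_neg_of_pos this).ne
  have ht := hd.tendsto_nhdsNE hne
  have hv : 1 / (2 * q) - 0 = (a : ℝ) / b := by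
    rw [hq, sub_zero, sub_zero]; field_simp
  rw [hv] at ht
  have hk : (0 : ℝ) < 1 / ((k : ℝ) + 1) := by positivity
  have hev := ht.eventually (H.eventually hk)
  filter_upwards [hev] with p hp
  refine ⟨a, b, c, H, ?_⟩
  rw [sub_zero] at hp
  exact hp

lemma res2 {ν m : ℕ} (hν : 1 ≤ ν) (hm : Odd m) (k : ℕ) :
    {α : ℝ | α ≠ 0 → 0 < |α| → |α| < ((m : ℝ) - 1) / (2 * (ν : ℝ)) → P2 ν m k |α|} ∈ residual ℝ := by
  refine residual_of_near ?_
  intro p₁ hp₁ _ hhi δ hδ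
  have hνR : (0 : ℝ) < ν := by exact_mod_cast hν
  have hmR : (0 : ℝ) < m := by exact_mod_cast hm.pos
  have hhi' : (ν : ℝ) < (m - 1) / (2 * p₁) := by
    rw [lt_div_iff₀ (by positivity)] at hhi ⊢
    linarith
  set x₁ : ℝ := m / (2 * p₁) - ν with hx₁
  have e1 : (m : ℝ) / (2 * p₁) = (m - 1) / (2 * p₁) + 1 / (2 * p₁) := by ring
  have hx₁p : 1 / (2 * p₁) < x₁ := by rw [hx₁, e1]; linarith
  have hx₁0 : 0 < x₁ := lt_trans (by positivity) hx₁p
  have hx₁ν : x₁ + ν = m / (2 * p₁) := by rw [hx₁]; ring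
  have hx : (ν : ℝ) < (m - 1) * x₁ := by
    have h1 : (m : ℝ) * x₁ > x₁ + ν := by
      rw [hx₁ν]
      have : (m : ℝ) * (1 / (2 * p₁)) < m * x₁ := mul_lt_mul_of_pos_left hx₁p hmR
      calc (m : ℝ) / (2 * p₁) = m * (1 / (2 * p₁)) := by ring
        _ < m * x₁ := this
    linarith
  have hc : ContinuousAt (bet ν m) x₁ := (hasDerivAt_bet hx₁0).continuousAt
  have hval : bet ν m x₁ = p₁ := by
    unfold bet; rw [hx₁ν]; field_simp
  obtain ⟨δ', hδ', hball⟩ := Metric.continuousAt_iff.mp hc δ hδ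
  obtain ⟨a, b, c, H, hab⟩ := exists_valid hν hm hx₁0 hx hδ'
  have hb : (0 : ℝ) < b := by exact_mod_cast H.bpos
  have hc0 : (0 : ℝ) < c := by exact_mod_cast H.cpos
  have ha : (0 : ℝ) < a := by exact_mod_cast H.apos
  have hs : (0 : ℝ) < (a : ℝ) / b := by positivity
  have h1 := hball (x := (a : ℝ) / b) (by rw [Real.dist_eq]; exact hab)
  rw [hval, Real.dist_eq] at h1
  have he1 := H.bet_eq 1
  have he0 := H.bet_eq 0
  rw [mul_one, mul_one] at he1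
  rw [mul_zero, mul_zero, add_zero, add_zero] at he0
  set q : ℝ := bet ν m ((a : ℝ) / b) with hq
  have hq0 : 0 < q := by rw [he0]; positivity
  refine ⟨q, h1, ?_⟩
  have hm' : (0 : ℝ) < ((m + 2 * b : ℕ) : ℝ) := by
    have := H.bpos; exact_mod_cast (by omega : 0 < m + 2 * b)
  have hd := hasDerivAt_inv2 hq0.ne' (((m + 2 * b : ℕ) : ℝ)) (((ν + 2 * c : ℕ) : ℝ))
  have hne : -(((m + 2 * b : ℕ) : ℝ)) / (2 * q ^ 2) ≠ 0 := by
    have : (0 : ℝ) < ((m + 2 * b : ℕ) : ℝ) / (2 * q ^ 2) := by positivity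
    rw [neg_div]; exact (neg_neg_of_pos this).ne
  have ht := hd.tendsto_nhdsNE hne
  have hv : ((m + 2 * b : ℕ) : ℝ) / (2 * q) - ((ν + 2 * c : ℕ) : ℝ) = (a : ℝ) / b := by
    have h2 : q = ((m + 2 * b : ℕ) : ℝ) / (2 * ((a : ℝ) / b + ((ν + 2 * c : ℕ) : ℝ))) := by
      rw [he0, ← he1]; rfl
    have h3 : (0 : ℝ) < (a : ℝ) / b + ((ν + 2 * c : ℕ) : ℝ) := by positivity
    rw [h2]
    field_simp
    ring
  rw [hv] at ht
  have hv0 : (m : ℝ) / (2 * q) - (ν : ℝ) = (a : ℝ) / b := by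
    have h3 : (0 : ℝ) < (a : ℝ) / b + ν := by positivity
    rw [hq]; unfold bet
    field_simp
    ring
  have hk : (0 : ℝ) < 1 / ((k : ℝ) + 1) := by positivity
  have hev := ht.eventually (H.eventually hk)
  have hcont : ContinuousAt (fun p : ℝ =>
      |(((m + 2 * b : ℕ) : ℝ) / (2 * p) - ((ν + 2 * c : ℕ) : ℝ)) - ((m : ℝ) / (2 * p) - ν)|) q :=
    (hd.continuousAt.sub (hasDerivAt_inv2 hq0.ne' (m : ℝ) (ν : ℝ)).continuousAt).abs
  have hv2 : |(((m + 2 * b : ℕ) : ℝ) / (2 * q) - ((ν + 2 * c : ℕ) : ℝ)) - ((m : ℝ) / (2 * q) - ν)|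
      = 0 := by
    rw [hv, hv0, sub_self, abs_zero]
  have hev2 := hcont.tendsto
  rw [hv2] at hev2
  have hev3 := (hev2.mono_left (nhdsWithin_le_nhds (s := {q}ᶜ))).eventually_lt_const hk
  filter_upwards [hev, hev3] with p hp hp2
  exact ⟨a, b, c, H, hp, hp2⟩

lemma res3 {x₀ : ℚ} (hx₀ : 0 < x₀) (k K : ℕ) :
    {α : ℝ | α ≠ 0 → 1 / (2 * (x₀ : ℝ)) < |α| → |α| < K → P3 x₀ k |α|} ∈ residual ℝ := by
  refine residual_of_near ?_
  intro p₁ hp₁ hlo _ δ hδ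
  have hx0R : (0 : ℝ) < x₀ := by exact_mod_cast hx₀
  obtain ⟨ν, m, hν, hm, h1⟩ := exists_odd_approx hx0R hp₁
    (lt_min hδ (sub_pos.mpr hlo))
  have hmR : (0 : ℝ) < m := by exact_mod_cast hm.pos
  set q : ℝ := (m : ℝ) / (2 * ((x₀ : ℝ) + ν)) with hq
  have hq0 : 0 < q := by rw [hq]; positivity
  have hq1 : 1 / (2 * (x₀ : ℝ)) < q := by
    have := (abs_lt.mp (h1.trans_le (min_le_right _ _))).1
    linarith
  refine ⟨q, h1.trans_le (min_le_left _ _), ?_⟩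
  have hk : (0 : ℝ) < 1 / ((k : ℝ) + 1) := by positivity
  have hmq : (m : ℝ) / (2 * q) = x₀ + ν := by rw [hq]; field_simp
  have hc1 : ContinuousAt (fun p : ℝ => |(m : ℝ) / (2 * p) - ν - x₀|) q :=
    (((hasDerivAt_inv2 hq0.ne' (m : ℝ) (ν : ℝ)).continuousAt).sub continuousAt_const).abs
  have hv1 : |(m : ℝ) / (2 * q) - ν - x₀| = 0 := by rw [hmq]; simp
  have ht1 := hc1.tendsto
  rw [hv1] at ht1
  have hc2 : ContinuousAt (fun p : ℝ => ((m : ℝ) - 1) / (2 * p) - 0) q :=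
    (hasDerivAt_inv2 hq0.ne' ((m : ℝ) - 1) 0).continuousAt
  have hv2 : (ν : ℝ) < ((m : ℝ) - 1) / (2 * q) - 0 := by
    have e1 : ((m : ℝ) - 1) / (2 * q) - 0 = m / (2 * q) - 1 / (2 * q) := by ring
    rw [e1, hmq]
    have : 1 / (2 * q) < x₀ := by
      rw [div_lt_iff₀ (by positivity)] at hq1 ⊢
      linarith
    linarith
  have h2 := (ht1.mono_left (nhdsWithin_le_nhds (s := {q}ᶜ))).eventually_lt_const hk
  have h3 := (hc2.tendsto.mono_left (nhdsWithin_le_nhds (s := {q}ᶜ))).eventually_const_lt hv2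
  filter_upwards [h2, h3] with p hp2 hp3
  exact ⟨ν, m, hν, hm, by rw [sub_zero] at hp3; exact hp3, hp2⟩

/-- The comeagre set of frequencies. -/
def GenericSet : Set ℝ :=
  {α : ℝ | α ≠ 0 ∧
    (∀ ν m k : ℕ, 1 ≤ ν → Odd m → |α| < ((m : ℝ) - 1) / (2 * (ν : ℝ)) → P1 ν m k |α|) ∧
    (∀ ν m k : ℕ, 1 ≤ ν → Odd m → |α| < ((m : ℝ) - 1) / (2 * (ν : ℝ)) → P2 ν m k |α|) ∧
    (∀ (x₀ : ℚ) (k : ℕ), 0 < x₀ → 1 / (2 * (x₀ : ℝ)) < |α| → P3 x₀ k |α|)}

lemma genericSet_mem_residual : GenericSet ∈ residual ℝ := by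
  have h0 : {α : ℝ | α ≠ 0} ∈ residual ℝ := by
    refine residual_of_dense_open isOpen_ne ?_
    have : ({0} : Set ℝ)ᶜ = {α : ℝ | α ≠ 0} := rfl
    rw [← this]
    exact (Set.countable_singleton (0 : ℝ)).dense_compl ℝ
  have h1 : ∀ᶠ α : ℝ in residual ℝ, ∀ ν m k : ℕ, 1 ≤ ν → Odd m →
      (α ≠ 0 → 0 < |α| → |α| < ((m : ℝ) - 1) / (2 * (ν : ℝ)) → P1 ν m k |α|) := by
    rw [eventually_countable_forall]; intro ν
    rw [eventually_countable_forall]; intro m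
    rw [eventually_countable_forall]; intro k
    by_cases hν : 1 ≤ ν
    · by_cases hm : Odd m
      · filter_upwards [res1 hν hm k] with α hα _ _
        exact hα
      · exact Eventually.of_forall (fun α _ h => absurd h hm)
    · exact Eventually.of_forall (fun α h => absurd h hν)
  have h2 : ∀ᶠ α : ℝ in residual ℝ, ∀ ν m k : ℕ, 1 ≤ ν → Odd m →
      (α ≠ 0 → 0 < |α| → |α| < ((m : ℝ) - 1) / (2 * (ν : ℝ)) → P2 ν m k |α|) := by
    rw [eventually_countable_forall]; intro ν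
    rw [eventually_countable_forall]; intro m
    rw [eventually_countable_forall]; intro k
    by_cases hν : 1 ≤ ν
    · by_cases hm : Odd m
      · filter_upwards [res2 hν hm k] with α hα _ _
        exact hα
      · exact Eventually.of_forall (fun α _ h => absurd h hm)
    · exact Eventually.of_forall (fun α h => absurd h hν)
  have h3 : ∀ᶠ α : ℝ in residual ℝ, ∀ (x₀ : ℚ) (k K : ℕ), 0 < x₀ →
      (α ≠ 0 → 1 / (2 * (x₀ : ℝ)) < |α| → |α| < K → P3 x₀ k |α|) := by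
    rw [eventually_countable_forall]; intro x₀
    rw [eventually_countable_forall]; intro k
    rw [eventually_countable_forall]; intro K
    by_cases hx : 0 < x₀
    · filter_upwards [res3 hx k K] with α hα _
      exact hα
    · exact Eventually.of_forall (fun α h => absurd h hx)
  filter_upwards [h0, h1, h2, h3] with α a0 a1 a2 a3
  refine ⟨a0, fun ν m k hν hm h => a1 ν m k hν hm a0 (abs_pos.mpr a0) h,
    fun ν m k hν hm h => a2 ν m k hν hm a0 (abs_pos.mpr a0) h, fun x₀ k hx h => ?_⟩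
  obtain ⟨K, hK⟩ := exists_nat_gt |α|
  exact a3 x₀ k K hx a0 h hK

/-- Large `β`. -/
lemma dense_large {p : ℝ} (hp : 0 < p)
    (h1 : ∀ ν m k : ℕ, 1 ≤ ν → Odd m → p < (m - 1) / (2 * ν) → P1 ν m k p)
    {β₀ δ : ℝ} (hβ : p < β₀) (hδ : 0 < δ) :
    ∃ β, |β - β₀| < δ ∧ Irrational β ∧ Irrational p ∧ Yes p β := by
  set x : ℝ := 1 / (2 * p) with hx
  have hx0 : 0 < x := by rw [hx]; positivity
  have hpx : 1 / (2 * x) = p := by rw [hx]; field_simp
  let S : ℕ → ℝ → Prop := fun ν β => 1 ≤ ν ∧ ∃ m, Odd m ∧ β = bet ν m x ∧ p < β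
  let G : ℕ → ℝ → ℝ := fun n β => Real.cos (Real.pi * (β * (x + n))) *
    (Real.sin (Real.pi * ((n : ℝ) / (2 * x))) * Real.sin (Real.pi * (n * β)))
  have hregion : ∀ ν m : ℕ, 1 ≤ ν → p < bet ν m x → p < ((m : ℝ) - 1) / (2 * ν) := by
    intro ν m hν h
    have hνR : (0 : ℝ) < ν := by exact_mod_cast hν
    unfold bet at h
    rw [lt_div_iff₀ (by positivity)] at h ⊢
    have : p * (2 * x) = 1 := by rw [hx]; field_simp
    nlinarith
  have step : ∀ ν s, S ν s → ∀ ε > 0, ∃ ν' s', ν < ν' ∧ S ν' s' ∧ |s' - s| < ε ∧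
      (∀ n, 1 ≤ n → n < ν' → ∀ᶠ t in 𝓝 s', G n t ≠ 0) ∧
      (∀ N, ν ≤ N → N < ν' → ∀ᶠ t in 𝓝 s', R N x t < ε) := by
    rintro ν β ⟨hν, m, hm, hβm, hpβ⟩ ε hε
    obtain ⟨k, hk⟩ := exists_nat_one_div_lt (lt_min hε (sub_pos.mpr hpβ))
    obtain ⟨a, b, c, H, hS1, hS2, hS3, hS4⟩ := h1 ν m k hν hm (hregion ν m hν (hβm ▸ hpβ))
    rw [← hx] at hS1 hS2 hS3 hS4
    have hclose : |bet (ν + 2 * c) (m + 2 * b) x - β| < 1 / ((k : ℝ) + 1) := by
      rw [hβm]; exact hS3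
    refine ⟨ν + 2 * c, bet (ν + 2 * c) (m + 2 * b) x, ?_, ⟨by omega, m + 2 * b, ?_, rfl, ?_⟩, ?_, ?_, ?_⟩
    · have := H.cpos; omega
    · exact hm.add_even ⟨b, by ring⟩
    · have := (abs_lt.mp (hclose.trans (hk.trans_le (min_le_right _ _)))).1
      linarith
    · exact hclose.trans (hk.trans_le (min_le_left _ _))
    · intro n hn1 hn2
      obtain ⟨g1, g2, g3⟩ := hS2 n hn1 hn2
      have hcont : ContinuousAt (G n) (bet (ν + 2 * c) (m + 2 * b) x) := by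
        apply Continuous.continuousAt
        show Continuous (fun β : ℝ => Real.cos (Real.pi * (β * (x + n))) *
          (Real.sin (Real.pi * ((n : ℝ) / (2 * x))) * Real.sin (Real.pi * (n * β))))
        fun_prop
      exact hcont.eventually_ne (mul_ne_zero g1 (mul_ne_zero g2 g3))
    · intro N hN1 hN2
      have hcont : Continuous (fun β => R N x β) := by
        unfold R
        refine continuous_finsetProd _ (fun n _ => ?_)
        unfold nm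
        refine Continuous.div_const ?_ _
        fun_prop
      have := hS1 N hN1 hN2
      exact (hcont.continuousAt.tendsto).eventually_lt_const
        (this.trans (hk.trans_le (min_le_left _ _)))
  obtain ⟨ν, m, hν, hm, hνm⟩ := exists_odd_approx hx0 (hp.trans hβ)
    (lt_min (half_pos hδ) (sub_pos.mpr hβ))
  have hS0 : S ν (bet ν m x) := by
    refine ⟨hν, m, hm, rfl, ?_⟩
    have := (abs_lt.mp (hνm.trans_le (min_le_right _ _))).1
    unfold bet; linarith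
  obtain ⟨β, hβ1, hβ2, hβ3⟩ := nested (S := S) (G := G) (Rf := fun N β => R N x β)
    (fun N t => R_nonneg N x t) step hS0 (by linarith : (0 : ℝ) < δ / 4)
  have hG : ∀ n : ℕ, 1 ≤ n → Real.cos (Real.pi * (β * (x + n))) ≠ 0 ∧
      Real.sin (Real.pi * ((n : ℝ) / (2 * x))) ≠ 0 ∧ Real.sin (Real.pi * (n * β)) ≠ 0 := by
    intro n hn
    have := hβ2 n hn
    exact ⟨left_ne_zero_of_mul this, left_ne_zero_of_mul (right_ne_zero_of_mul this),
      right_ne_zero_of_mul (right_ne_zero_of_mul this)⟩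
  refine ⟨β, ?_, ?_, ?_, ?_⟩
  · have e2 : |bet ν m x - β₀| < δ / 2 := hνm.trans_le (min_le_left _ _)
    calc |β - β₀| ≤ |β - bet ν m x| + |bet ν m x - β₀| := abs_sub_le _ _ _
      _ < δ := by linarith
  · exact irrational_of_sin (fun n hn => (hG n hn).2.2)
  · refine irrational_of_sin (fun n hn => ?_)
    have h3 := (hG n hn).2.1
    have : (n : ℝ) / (2 * x) = n * p := by rw [← hpx]; ring
    rwa [this] at h3
  · have := yes_of_R hx0 (fun n hn => (hG n hn).1) (fun n hn => (hG n hn).2.1) hβ3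
    rwa [hpx] at this

/-- Small `β`. -/
lemma dense_small {p : ℝ} (hp : 0 < p)
    (h2 : ∀ ν m k : ℕ, 1 ≤ ν → Odd m → p < (m - 1) / (2 * ν) → P2 ν m k p)
    (h3 : ∀ (x₀ : ℚ) (k : ℕ), 0 < x₀ → 1 / (2 * (x₀ : ℝ)) < p → P3 x₀ k p)
    {β₀ δ : ℝ} (hβ0 : 0 < β₀) (hβ : β₀ < p) (hδ : 0 < δ) :
    ∃ β, |β - β₀| < δ ∧ Irrational β ∧ Yes p β := by
  let S : ℕ → ℝ → Prop := fun ν x => 1 ≤ ν ∧ ∃ m : ℕ, Odd m ∧ x = (m : ℝ) / (2 * p) - ν ∧
    1 / (2 * p) < x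
  let G : ℕ → ℝ → ℝ := fun n x => Real.cos (Real.pi * (p * (x + n))) *
    Real.sin (Real.pi * ((n : ℝ) / (2 * x)))
  have hregion : ∀ ν m : ℕ, 1 ≤ ν → 1 / (2 * p) < (m : ℝ) / (2 * p) - ν →
      p < ((m : ℝ) - 1) / (2 * ν) := by
    intro ν m hν h
    have hνR : (0 : ℝ) < ν := by exact_mod_cast hν
    have h4 : (ν : ℝ) < ((m : ℝ) - 1) / (2 * p) := by
      have : ((m : ℝ) - 1) / (2 * p) = m / (2 * p) - 1 / (2 * p) := by ring
      rw [this]; linarith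
    rw [lt_div_iff₀ (by positivity)] at h4 ⊢
    linarith
  have hxpos : ∀ {x : ℝ}, 1 / (2 * p) < x → 0 < x := fun h => lt_trans (by positivity) h
  have step : ∀ ν s, S ν s → ∀ ε > 0, ∃ ν' s', ν < ν' ∧ S ν' s' ∧ |s' - s| < ε ∧
      (∀ n, 1 ≤ n → n < ν' → ∀ᶠ t in 𝓝 s', G n t ≠ 0) ∧
      (∀ N, ν ≤ N → N < ν' → ∀ᶠ t in 𝓝 s', R N t p < ε) := by
    rintro ν x ⟨hν, m, hm, hxm, hpx⟩ ε hε
    obtain ⟨k, hk⟩ := exists_nat_one_div_lt (lt_min hε (sub_pos.mpr hpx))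
    obtain ⟨a, b, c, H, ⟨hS1, hS2, hS3, hS4⟩, hclose⟩ := h2 ν m k hν hm (hregion ν m hν (hxm ▸ hpx))
    set x' : ℝ := ((m + 2 * b : ℕ) : ℝ) / (2 * p) - ((ν + 2 * c : ℕ) : ℝ) with hx'
    rw [← hxm] at hclose
    have hm' : (0 : ℝ) < ((m + 2 * b : ℕ) : ℝ) := by
      have := H.bpos; exact_mod_cast (by omega : 0 < m + 2 * b)
    have hbet : bet (ν + 2 * c) (m + 2 * b) x' = p := by
      unfold bet
      have : x' + ((ν + 2 * c : ℕ) : ℝ) = ((m + 2 * b : ℕ) : ℝ) / (2 * p) := by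
        rw [hx']; ring
      rw [this]; field_simp
    rw [hbet] at hS1 hS2
    have hx'p : 1 / (2 * p) < x' := by
      have := (abs_lt.mp (hclose.trans (hk.trans_le (min_le_right _ _)))).1
      linarith
    have hx'0 := hxpos hx'p
    have hcsin : ∀ n : ℕ, ContinuousAt (fun x : ℝ => Real.sin (Real.pi * ((n : ℝ) / (2 * x)))) x' :=
      fun n => ((hasDerivAt_den hx'0 n).const_mul Real.pi).sin.continuousAt
    refine ⟨ν + 2 * c, x', ?_, ⟨by omega, m + 2 * b, ?_, hx', hx'p⟩, ?_, ?_, ?_⟩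
    · have := H.cpos; omega
    · exact hm.add_even ⟨b, by ring⟩
    · exact hclose.trans (hk.trans_le (min_le_left _ _))
    · intro n hn1 hn2
      obtain ⟨g1, g2, g3⟩ := hS2 n hn1 hn2
      have hcont : ContinuousAt (G n) x' := by
        refine ContinuousAt.mul ?_ (hcsin n)
        apply Continuous.continuousAt
        fun_prop
      exact hcont.eventually_ne (mul_ne_zero g1 g2)
    · intro N hN1 hN2
      have hcont : ContinuousAt (fun x => R N x p) x' := by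
        unfold R
        refine tendsto_finsetProd _ (fun n hn => ?_)
        have hn1 := (Finset.mem_Icc.mp hn).1
        have hn2 := (Finset.mem_Icc.mp hn).2
        have g2 := (hS2 n hn1 (by omega)).2.1
        unfold nm dn
        refine ContinuousAt.div ?_ (hcsin n).abs (by simpa using g2)
        apply Continuous.continuousAt
        fun_prop
      have := hS1 N hN1 hN2
      exact (hcont.tendsto).eventually_lt_const
        (this.trans (hk.trans_le (min_le_left _ _)))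
  -- the target
  set y : ℝ := 1 / (2 * β₀) with hy
  have hy0 : 0 < y := by rw [hy]; positivity
  have hyp : 1 / (2 * p) < y := by
    rw [hy]; apply one_div_lt_one_div_of_lt <;> linarith
  have hc : ContinuousAt (fun x : ℝ => 1 / (2 * x) - 0) y :=
    (hasDerivAt_inv2 hy0.ne' 1 0).continuousAt
  have hval : 1 / (2 * y) - 0 = β₀ := by rw [hy]; field_simp; ring
  obtain ⟨δ₀, hδ₀, hball⟩ := Metric.continuousAt_iff.mp hc δ hδ
  have hδ₁ : 0 < min δ₀ (y - 1 / (2 * p)) := lt_min hδ₀ (sub_pos.mpr hyp)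
  set δ₁ : ℝ := min δ₀ (y - 1 / (2 * p)) with hδ₁def
  obtain ⟨x₀, hx₀1, hx₀2⟩ := exists_rat_btwn (show y - δ₁ / 4 < y by linarith)
  have hle : δ₁ ≤ y - 1 / (2 * p) := min_le_right _ _
  have hx₀p : 1 / (2 * p) < (x₀ : ℝ) := by linarith
  have hx₀pos : (0 : ℝ) < x₀ := hxpos hx₀p
  obtain ⟨k, hk⟩ := exists_nat_one_div_lt (by linarith : (0 : ℝ) < δ₁ / 4)
  obtain ⟨ν, m, hν, hm, hreg, hcl⟩ := h3 x₀ k (by exact_mod_cast hx₀pos) (by
    rw [div_lt_iff₀ (by positivity)] at hx₀p ⊢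
    linarith)
  have hS0 : S ν ((m : ℝ) / (2 * p) - ν) := by
    refine ⟨hν, m, hm, rfl, ?_⟩
    have : ((m : ℝ) - 1) / (2 * p) = m / (2 * p) - 1 / (2 * p) := by ring
    rw [this] at hreg; linarith
  obtain ⟨x, hx1, hx2, hx3⟩ := nested (S := S) (G := G) (Rf := fun N x => R N x p)
    (fun N t => R_nonneg N t p) step hS0 (by linarith : (0 : ℝ) < δ₁ / 4)
  have hxy : |x - y| < δ₁ := by
    have e1 : |(x₀ : ℝ) - y| < δ₁ / 4 := by rw [abs_lt]; constructor <;> linarith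
    have e2 : |(m : ℝ) / (2 * p) - ν - x₀| < δ₁ / 4 := hcl.trans hk
    calc |x - y| ≤ |x - ((m : ℝ) / (2 * p) - ν)| + |((m : ℝ) / (2 * p) - ν) - y| := abs_sub_le _ _ _
      _ ≤ |x - ((m : ℝ) / (2 * p) - ν)| + (|((m : ℝ) / (2 * p) - ν) - x₀| + |(x₀ : ℝ) - y|) := by
          gcongr; exact abs_sub_le _ _ _
      _ < δ₁ := by linarith
  have hxp : 1 / (2 * p) < x := by
    have := (abs_lt.mp hxy).1
    linarith
  have hx0 : 0 < x := hxpos hxp
  have hG : ∀ n : ℕ, 1 ≤ n → Real.cos (Real.pi * (p * (x + n))) ≠ 0 ∧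
      Real.sin (Real.pi * ((n : ℝ) / (2 * x))) ≠ 0 := by
    intro n hn
    have := hx2 n hn
    exact ⟨left_ne_zero_of_mul this, right_ne_zero_of_mul this⟩
  refine ⟨1 / (2 * x), ?_, ?_, ?_⟩
  · have := hball (x := x) (by rw [Real.dist_eq]; exact hxy.trans_le (min_le_left _ _))
    rw [hval, Real.dist_eq, sub_zero] at this
    exact this
  · refine irrational_of_sin (fun n hn => ?_)
    have := (hG n hn).2
    have h4 : (n : ℝ) / (2 * x) = n * (1 / (2 * x)) := by ring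
    rwa [h4] at this
  · exact (yes_of_R hx0 (fun n hn => (hG n hn).1) (fun n hn => (hG n hn).2) hx3).swap'

/-- **Main theorem (YES side).** -/
theorem yes_dense : ∃ A ∈ residual ℝ, ∀ α ∈ A, Irrational α ∧
    ∀ β₀ δ : ℝ, 0 < δ → ∃ β, |β - β₀| < δ ∧ Irrational β ∧ α ≠ β ∧ Yes α β := by
  refine ⟨GenericSet, genericSet_mem_residual, ?_⟩
  rintro α ⟨h0, h1, h2, h3⟩
  set p : ℝ := |α| with hp
  have hp0 : 0 < p := abs_pos.mpr h0
  have hirr : Irrational p := by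
    obtain ⟨_, _, _, h, _⟩ := dense_large hp0 h1 (show p < p + 1 by linarith) one_pos
    exact h
  refine ⟨?_, ?_⟩
  · rcases abs_choice α with h | h
    · rw [hp, h] at hirr; exact hirr
    · rw [hp, h] at hirr; exact irrational_neg_iff.mp hirr
  · intro β₀ δ hδ
    -- choose a positive target different from `p`
    obtain ⟨β₁, hβ₁0, hβ₁p, hβ₁⟩ : ∃ β₁ : ℝ, 0 < β₁ ∧ β₁ ≠ p ∧ |β₁ - abs β₀| < δ / 2 := by
      by_cases h : |β₀| + δ / 4 = p
      · refine ⟨|β₀| + δ / 8, by positivity, ?_, ?_⟩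
        · intro h'; linarith
        · rw [add_sub_cancel_left, abs_of_pos (by linarith)]; linarith
      · refine ⟨|β₀| + δ / 4, by positivity, h, ?_⟩
        rw [add_sub_cancel_left, abs_of_pos (by linarith)]; linarith
    have hδ' : 0 < min (δ / 2) (min |β₁ - p| β₁) :=
      lt_min (by linarith) (lt_min (abs_pos.mpr (sub_ne_zero.mpr hβ₁p)) hβ₁0)
    obtain ⟨β, hβ1, hβ2, hβ3⟩ : ∃ β, |β - β₁| < min (δ / 2) (min |β₁ - p| β₁) ∧ Irrational β ∧
        Yes p β := by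
      rcases lt_or_gt_of_ne hβ₁p with h | h
      · exact dense_small hp0 h2 h3 hβ₁0 h hδ'
      · obtain ⟨β, a1, a2, _, a3⟩ := dense_large hp0 h1 h hδ'
        exact ⟨β, a1, a2, a3⟩
    have hβp : β ≠ p := by
      intro h
      rw [h, abs_sub_comm] at hβ1
      exact absurd (hβ1.trans_le ((min_le_right _ _).trans (min_le_left _ _))) (lt_irrefl _)
    have hβ0 : 0 < β := by
      have := (abs_lt.mp (hβ1.trans_le ((min_le_right _ _).trans (min_le_right _ _)))).1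
      linarith
    have hβd : |β - abs β₀| < δ := by
      have := hβ1.trans_le (min_le_left _ _)
      calc |β - abs β₀| ≤ |β - β₁| + |β₁ - abs β₀| := abs_sub_le _ _ _
        _ < δ := by linarith
    have hαp : |α| = |p| := by rw [hp, abs_abs]
    rcases abs_choice β₀ with h | h
    · refine ⟨β, by rw [h] at hβd; exact hβd, hβ2, ?_, hβ3.abs hαp rfl⟩
      rintro rfl
      exact hβp (abs_of_pos hβ0).symm
    · refine ⟨-β, ?_, hβ2.neg, ?_, hβ3.abs hαp (abs_neg β)⟩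
      · rw [h] at hβd
        have : (-β) - β₀ = -(β - -β₀) := by ring
        rw [this, abs_neg]; exact hβd
      · intro h'
        apply hβp
        rw [hp, h', abs_neg, abs_of_pos hβ0]

end Helper62HRT
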