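import Pool.Agent.Helper62.HRT.Defs

/-!
MP_0ef687_an: solutions supported on half an orbit.
-/

namespace Helper62HRT

open Filter Topology

/-- `|1 + e(β(x+n))| / 2`. -/
noncomputable def nm (x β : ℝ) (n : ℕ) : ℝ := |Real.cos (Real.pi * (β * (x + n)))|

/-- `|1 - e(n/(2x))| / 2`. -/
noncomputable def dn (x : ℝ) (n : ℕ) : ℝ := |Real.sin (Real.pi * (n / (2 * x)))|

noncomputable def R (N : ℕ) (x β : ℝ) : ℝ := ∏ n ∈ Finset.Icc 1 N, nm x β n / dn x n

lemma R_nonneg (N : ℕ) (x β : ℝ) : 0 ≤ R N x β :=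
  Finset.prod_nonneg fun _ _ => div_nonneg (abs_nonneg _) (abs_nonneg _)

lemma norm_num (x β : ℝ) (n : ℕ) : ‖1 + e (β * (x + (n : ℝ)))‖ = 2 * nm x β n :=
  norm_one_add_e _

lemma norm_den {x : ℝ} (hx : 0 < x) (n : ℕ) :
    ‖1 + e (1 / (2 * x) * (x + (n : ℝ)))‖ = 2 * dn x n := by
  rw [norm_one_add_e]
  have : Real.pi * (1 / (2 * x) * (x + (n : ℝ))) = Real.pi * (n / (2 * x)) + Real.pi / 2 := by
    field_simp
    ring
  rw [this, Real.cos_add_pi_div_two, abs_neg]
  rfl

lemma yes_of_R {x β : ℝ} (hx : 0 < x)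
    (hnum : ∀ n : ℕ, 1 ≤ n → Real.cos (Real.pi * (β * (x + n))) ≠ 0)
    (hden : ∀ n : ℕ, 1 ≤ n → Real.sin (Real.pi * (n / (2 * x))) ≠ 0)
    (hR : Tendsto (fun N => R N x β) atTop (𝓝 0)) : Yes (1 / (2 * x)) β := by
  set α : ℝ := 1 / (2 * x) with hα
  let P : ℕ → ℂ := fun N => ∏ k ∈ Finset.Icc 1 N,
    (1 + e (β * (x + (k : ℝ)))) / (1 + e (α * (x + (k : ℝ))))
  let u : ℤ → ℂ := fun N => if N ≤ 0 then 0 else P (N - 1).toNat
  have hnum' : ∀ n : ℕ, 1 ≤ n → (1 + e (β * (x + (n : ℝ)))) ≠ 0 := by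
    intro n hn h0
    have h1 := norm_num x β n
    rw [h0, norm_zero] at h1
    have : nm x β n = 0 := by linarith
    exact hnum n hn (abs_eq_zero.mp this)
  have hden' : ∀ n : ℕ, 1 ≤ n → (1 + e (α * (x + (n : ℝ)))) ≠ 0 := by
    intro n hn h0
    have h1 := norm_den hx n
    rw [← hα, h0, norm_zero] at h1
    have : dn x n = 0 := by linarith
    exact hden n hn (abs_eq_zero.mp this)
  have hP : ∀ N, ‖P N‖ = R N x β := by
    intro N
    show ‖∏ k ∈ Finset.Icc 1 N, _‖ = _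
    rw [norm_prod]
    unfold R
    refine Finset.prod_congr rfl (fun k _ => ?_)
    rw [norm_div, norm_num, hα, norm_den hx]
    rw [mul_div_mul_left _ _ (by norm_num : (2:ℝ) ≠ 0)]
  have hPne : ∀ N, P N ≠ 0 := by
    intro N
    refine Finset.prod_ne_zero_iff.mpr (fun k hk => ?_)
    have hk1 : 1 ≤ k := (Finset.mem_Icc.mp hk).1
    exact div_ne_zero (hnum' k hk1) (hden' k hk1)
  refine yes_of_seq x u ?_ ?_ ?_
  · intro N
    rcases lt_trichotomy N 0 with hN | hN | hN
    · have h1 : u (N + 1) = 0 := if_pos (by omega)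
      have h2 : u N = 0 := if_pos (by omega)
      rw [h1, h2]; simp
    · subst hN
      have h2 : u 0 = 0 := if_pos le_rfl
      have h3 : (1 : ℂ) + e (α * (x + ((0 : ℤ) : ℝ))) = 0 := by
        rw [← norm_eq_zero, norm_one_add_e]
        have : Real.pi * (α * (x + ((0 : ℤ) : ℝ))) = Real.pi / 2 := by
          rw [hα]; push_cast; field_simp; ring
        rw [this, Real.cos_pi_div_two]; simp
      rw [h2, h3]; simp
    · have h1 : u (N + 1) = P (N + 1 - 1).toNat := if_neg (by omega)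
      have h2 : u N = P (N - 1).toNat := if_neg (by omega)
      obtain ⟨k, rfl⟩ : ∃ k : ℕ, N = k + 1 := ⟨(N - 1).toNat, by omega⟩
      have h3 : ((k : ℤ) + 1 + 1 - 1).toNat = k + 1 := by omega
      have h4 : ((k : ℤ) + 1 - 1).toNat = k := by omega
      rw [h1, h2, h3, h4]
      have h5 : P (k + 1) = P k * ((1 + e (β * (x + ((k + 1 : ℕ) : ℝ)))) /
          (1 + e (α * (x + ((k + 1 : ℕ) : ℝ))))) := by
        show ∏ k ∈ Finset.Icc 1 (k + 1), _ = _
        rw [Finset.prod_Icc_succ_top (by omega)]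
      have h6 : (((k : ℤ) + 1 : ℤ) : ℝ) = ((k + 1 : ℕ) : ℝ) := by push_cast; ring
      rw [h5, h6, mul_assoc, div_mul_cancel₀ _ (hden' (k + 1) (by omega))]
  · have hinj : Function.Injective (fun n : ℕ => ((n : ℤ) + 1)) := fun a b hab => by
      simpa using hab
    refine (Set.infinite_range_of_injective hinj).mono ?_
    rintro _ ⟨n, rfl⟩
    show u ((n : ℤ) + 1) ≠ 0
    have h1 : u ((n : ℤ) + 1) = P ((n : ℤ) + 1 - 1).toNat := if_neg (by omega)
    rw [h1]; exact hPne _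
  · rw [Int.cofinite_eq]
    refine Tendsto.sup ?_ ?_
    · refine tendsto_const_nhds.congr' ?_
      filter_upwards [eventually_le_atBot (0 : ℤ)] with N hN
      exact (if_pos hN).symm
    · rw [tendsto_zero_iff_norm_tendsto_zero]
      have h1 : Tendsto (fun N : ℤ => R (N - 1).toNat x β) atTop (𝓝 0) := by
        refine hR.comp ?_
        refine tendsto_atTop.mpr (fun b => ?_)
        filter_upwards [eventually_ge_atTop ((b : ℤ) + 1)] with N hN
        omega
      refine h1.congr' ?_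
      filter_upwards [eventually_gt_atTop (0 : ℤ)] with N hN
      have : u N = P (N - 1).toNat := if_neg (by omega)
      rw [this, hP]

/-- irrationality of `α` from the nonvanishing of the denominators -/
lemma irrational_of_sin {α : ℝ} (h : ∀ n : ℕ, 1 ≤ n → Real.sin (Real.pi * (n * α)) ≠ 0) :
    Irrational α := by
  rintro ⟨q, rfl⟩
  have h1 := h q.den q.den_pos
  apply h1
  have : ((q.den : ℕ) : ℝ) * (q : ℝ) = (q.num : ℝ) := by
    have := Rat.den_mul_eq_num q
    exact_mod_cast this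
  rw [this, mul_comm]
  exact Real.sin_int_mul_pi _

end Helper62HRT
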