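import Pool.Agent.Helper62.HRT.Asym

/-!
MP_0ef687_an: a nested-interval lemma, density of resonances, and a Baire-category lemma.
-/

namespace Helper62HRT

open Filter Topology

section Nested

variable {S : ℕ → ℝ → Prop} {G Rf : ℕ → ℝ → ℝ}

/-- state of the nested construction -/
structure St (S : ℕ → ℝ → Prop) where
  ν : ℕ
  s : ℝ
  ρ : ℝ
  hρ : 0 < ρ
  hS : S ν s

lemma nested (hR0 : ∀ N t, 0 ≤ Rf N t)
    (step : ∀ ν s, S ν s → ∀ ε > 0, ∃ ν' s', ν < ν' ∧ S ν' s' ∧ |s' - s| < ε ∧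
      (∀ n, 1 ≤ n → n < ν' → ∀ᶠ t in 𝓝 s', G n t ≠ 0) ∧
      (∀ N, ν ≤ N → N < ν' → ∀ᶠ t in 𝓝 s', Rf N t < ε))
    {ν : ℕ} {s : ℝ} (h0 : S ν s) {δ : ℝ} (hδ : 0 < δ) :
    ∃ t, |t - s| ≤ δ ∧ (∀ n, 1 ≤ n → G n t ≠ 0) ∧ Tendsto (fun N => Rf N t) atTop (𝓝 0) := by
  classical
  have next : ∀ (k : ℕ) (σ : St S), ∃ σ' : St S, σ.ν < σ'.ν ∧
      Metric.closedBall σ'.s σ'.ρ ⊆ Metric.closedBall σ.s σ.ρ ∧
      ∀ t ∈ Metric.closedBall σ'.s σ'.ρ, (∀ n, 1 ≤ n → n < σ'.ν → G n t ≠ 0) ∧
        (∀ N, σ.ν ≤ N → N < σ'.ν → Rf N t < 1 / ((k : ℝ) + 1)) := by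
    intro k σ
    have hk : (0 : ℝ) < 1 / ((k : ℝ) + 1) := by positivity
    have hε : 0 < min (σ.ρ / 2) (1 / ((k : ℝ) + 1)) := lt_min (half_pos σ.hρ) hk
    obtain ⟨ν', s', h1, h2, h3, h4, h5⟩ := step σ.ν σ.s σ.hS _ hε
    have e1 : ∀ᶠ t in 𝓝 s', ∀ n ∈ Finset.Ico 1 ν', G n t ≠ 0 := by
      rw [Finset.eventually_all]
      intro n hn
      exact h4 n (Finset.mem_Ico.mp hn).1 (Finset.mem_Ico.mp hn).2
    have e2 : ∀ᶠ t in 𝓝 s', ∀ N ∈ Finset.Ico σ.ν ν',
        Rf N t < min (σ.ρ / 2) (1 / ((k : ℝ) + 1)) := by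
      rw [Finset.eventually_all]
      intro N hN
      exact h5 N (Finset.mem_Ico.mp hN).1 (Finset.mem_Ico.mp hN).2
    obtain ⟨r, hr, hball⟩ := Metric.eventually_nhds_iff_ball.mp (e1.and e2)
    have hr2 : 0 < min (r / 2) (σ.ρ / 2) := lt_min (half_pos hr) (half_pos σ.hρ)
    refine ⟨⟨ν', s', min (r / 2) (σ.ρ / 2), hr2, h2⟩, h1, ?_, ?_⟩
    · intro t ht
      rw [Metric.mem_closedBall] at ht ⊢
      have a1 : dist s' σ.s < σ.ρ / 2 := by
        rw [Real.dist_eq]; exact lt_of_lt_of_le h3 (min_le_left _ _)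
      have a2 : dist t s' ≤ σ.ρ / 2 := ht.trans (min_le_right _ _)
      calc dist t σ.s ≤ dist t s' + dist s' σ.s := dist_triangle _ _ _
        _ ≤ σ.ρ := by linarith
    · intro t ht
      rw [Metric.mem_closedBall] at ht
      have a1 : t ∈ Metric.ball s' r := by
        rw [Metric.mem_ball]
        have : dist t s' ≤ r / 2 := ht.trans (min_le_left _ _)
        linarith
      obtain ⟨b1, b2⟩ := hball t a1
      exact ⟨fun n hn1 hn2 => b1 n (Finset.mem_Ico.mpr ⟨hn1, hn2⟩),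
        fun N hN1 hN2 => (b2 N (Finset.mem_Ico.mpr ⟨hN1, hN2⟩)).trans_le (min_le_right _ _)⟩
  choose nx hnx1 hnx2 hnx3 using next
  let σ : ℕ → St S := fun k => Nat.rec ⟨ν, s, δ, hδ, h0⟩ (fun k τ => nx k τ) k
  have hσ0 : σ 0 = ⟨ν, s, δ, hδ, h0⟩ := rfl
  have hσs : ∀ k, σ (k + 1) = nx k (σ k) := fun k => rfl
  have hν : ∀ k, (σ k).ν < (σ (k + 1)).ν := fun k => hnx1 k (σ k)
  have hνk : ∀ k, k ≤ (σ k).ν := by
    intro k
    induction k with
    | zero => exact Nat.zero_le _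
    | succ k ih => have := hν k; omega
  obtain ⟨t, ht⟩ := IsCompact.nonempty_iInter_of_sequence_nonempty_isCompact_isClosed
    (fun k => Metric.closedBall (σ k).s (σ k).ρ)
    (fun k => hnx2 k (σ k))
    (fun k => Metric.nonempty_closedBall.mpr (σ k).hρ.le)
    (isCompact_closedBall _ _)
    (fun k => Metric.isClosed_closedBall)
  rw [Set.mem_iInter] at ht
  refine ⟨t, ?_, ?_, ?_⟩
  · have := ht 0
    rw [Metric.mem_closedBall, Real.dist_eq] at this
    exact this
  · intro n hn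
    have h1 := (hnx3 n (σ n) t (ht (n + 1))).1 n hn
    exact h1 (by have := hνk (n + 1); change n + 1 ≤ (nx n (σ n)).ν at this; omega)
  · have key : ∀ k j N, (σ k).ν ≤ N → N < (σ (k + j)).ν → Rf N t < 1 / ((k : ℝ) + 1) := by
      intro k j
      induction j with
      | zero => intro N h1 h2; simp at h2; omega
      | succ j ih =>
        intro N h1 h2
        by_cases h3 : N < (σ (k + j)).ν
        · exact ih N h1 h3
        · have h4 := (hnx3 (k + j) (σ (k + j)) t (ht (k + j + 1))).2 N (not_lt.mp h3) h2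
          refine h4.trans_le ?_
          apply one_div_le_one_div_of_le (by positivity)
          push_cast
          have : (0 : ℝ) ≤ j := Nat.cast_nonneg _
          linarith
    rw [Metric.tendsto_atTop]
    intro ε hε
    obtain ⟨k, hk⟩ := exists_nat_one_div_lt hε
    refine ⟨(σ k).ν, fun N hN => ?_⟩
    rw [Real.dist_eq, sub_zero, abs_of_nonneg (hR0 N t)]
    refine (key k (N + 1) N hN ?_).trans hk
    have := hνk (k + (N + 1))
    omega

end Nested

/-- Resonances are dense. -/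
lemma exists_valid {ν m : ℕ} (hν : 1 ≤ ν) (hm : Odd m) {x : ℝ} (hx0 : 0 < x)
    (hx : (ν : ℝ) < (m - 1) * x) {δ : ℝ} (hδ : 0 < δ) :
    ∃ a b c, Valid ν m a b c ∧ |(a : ℝ) / b - x| < δ := by
  have hm1 : 1 ≤ m := hm.pos
  have hmR : (0 : ℝ) < m := by exact_mod_cast hm1
  have hmR1 : (1 : ℝ) ≤ m := by exact_mod_cast hm1
  have hνR : (0 : ℝ) < ν := by exact_mod_cast hν
  set B : ℕ := 2 * m + 1 with hB
  have hBR : (B : ℝ) = 2 * m + 1 := by rw [hB]; push_cast; ring
  have hB1 : (1 : ℝ) < B := by rw [hBR]; linarith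
  set η : ℝ := (m - 1) * x - ν with hη
  have hη0 : 0 < η := by rw [hη]; linarith
  obtain ⟨s, hs⟩ := pow_unbounded_of_one_lt
    (max (m * B / δ) (m * ((m - 1) * B + ν) / η) + B) hB1
  have hb1 : (m : ℝ) * B / δ < (B : ℝ) ^ s := by
    have := le_max_left ((m : ℝ) * B / δ) (m * ((m - 1) * B + ν) / η)
    linarith
  have hb2 : (m : ℝ) * ((m - 1) * B + ν) / η < (B : ℝ) ^ s := by
    have := le_max_right ((m : ℝ) * B / δ) (m * ((m - 1) * B + ν) / η)
    linarith
  set b : ℕ := B ^ s with hb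
  have hbR : (b : ℝ) = (B : ℝ) ^ s := by rw [hb]; push_cast; ring
  rw [← hbR] at hb1 hb2
  have hb0 : (0 : ℝ) < b := by
    rw [hbR]; positivity
  set T : ℝ := (x + ν) * b / m with hT
  have hT0 : 0 < T := by rw [hT]; positivity
  set u : ℕ := ⌊T / B⌋₊ with hu
  set c : ℕ := B * u + 1 with hc
  have hu1 : (u : ℝ) ≤ T / B := Nat.floor_le (by positivity)
  have hu2 : T / B < u + 1 := Nat.lt_floor_add_one _
  have hcR : (c : ℝ) = B * u + 1 := by rw [hc]; push_cast; ring
  have hB0 : (0 : ℝ) < B := by linarith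
  have hc1 : (c : ℝ) ≤ T + B := by
    rw [hcR]
    have : (B : ℝ) * u ≤ T := by
      have := (le_div_iff₀ hB0).mp hu1
      linarith
    linarith
  have hc2 : T - B ≤ (c : ℝ) := by
    rw [hcR]
    have : T < (u + 1) * B := (div_lt_iff₀ hB0).mp hu2
    nlinarith
  have hmT : (m : ℝ) * T = (x + ν) * b := by rw [hT]; field_simp
  -- gap in the reals
  have hgap : (ν : ℝ) ≤ (m - 1) * c - ν * b := by
    have h1 : (m - 1) * (T - B) ≤ (m - 1) * (c : ℝ) :=
      mul_le_mul_of_nonneg_left hc2 (by linarith)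
    have h2 : (m : ℝ) * ((m - 1) * B + ν) < η * b := by
      rw [div_lt_iff₀ hη0] at hb2; linarith
    have h3 : (m : ℝ) * ((m - 1) * T - ν * b) = η * b := by
      have h30 : (m : ℝ) * ((m - 1) * T - ν * b) = (m - 1) * (m * T) - m * ν * b := by ring
      rw [h30, hmT, hη]
      ring
    have h4 : (m : ℝ) * ((m - 1) * B + ν) < m * ((m - 1) * T - ν * b) := by rw [h3]; exact h2
    have h5 : (m - 1) * (B : ℝ) + ν < (m - 1) * T - ν * b := lt_of_mul_lt_mul_left h4 hmR.le
    nlinarith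
  have hle : ν * b ≤ m * c := by
    have h1 : (0 : ℝ) ≤ c := Nat.cast_nonneg _
    have : ((ν * b : ℕ) : ℝ) ≤ ((m * c : ℕ) : ℝ) := by
      push_cast; nlinarith
    exact_mod_cast this
  obtain ⟨a, ha⟩ := Nat.exists_eq_add_of_le hle
  have haR : (a : ℝ) = m * c - ν * b := by
    have : ((m * c : ℕ) : ℝ) = ((ν * b + a : ℕ) : ℝ) := by exact_mod_cast ha
    push_cast at this; linarith
  have hBodd : Odd B := ⟨m, by rw [hB]⟩
  have cop1 : Nat.Coprime m B := by
    rw [hB]
    have : Nat.Coprime m (1 + m * 2) := by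
      rw [Nat.coprime_add_mul_left_right]; exact Nat.coprime_one_right m
    convert this using 1; ring
  have cop2 : Nat.Coprime c B := by
    rw [hc]
    have : Nat.Coprime (1 + B * u) B := by
      rw [Nat.coprime_add_mul_left_left]; exact Nat.coprime_one_left B
    convert this using 1; ring
  have cop3 : Nat.Coprime (m * c) b := by
    rw [hb]
    exact (Nat.Coprime.mul_left cop1 cop2).pow_right s
  have cop4 : Nat.Coprime a b := by
    rw [ha] at cop3
    have : ν * b + a = a + ν * b := by ring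
    rw [this] at cop3
    exact (Nat.coprime_add_mul_right_left a b ν).mp cop3
  refine ⟨a, b, c, ⟨hν, hm, hBodd.pow, by omega, cop4, by omega, ?_⟩, ?_⟩
  · have : ((2 * c + ν : ℕ) : ℝ) ≤ ((2 * a : ℕ) : ℝ) := by
      push_cast
      rw [haR]
      nlinarith
    exact_mod_cast this
  · have h1 : (a : ℝ) / b - x = m / b * (c - T) := by
      have h3 : (m : ℝ) / b * (c - T) = (m * c - m * T) / b := by ring
      rw [h3, hmT, haR]
      field_simp
      ring
    rw [h1, abs_mul, abs_of_pos (by positivity : (0 : ℝ) < m / b)]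
    have h2 : |(c : ℝ) - T| ≤ B := abs_le.mpr ⟨by linarith, by linarith⟩
    calc (m : ℝ) / b * |(c : ℝ) - T| ≤ m / b * B :=
          mul_le_mul_of_nonneg_left h2 (by positivity)
      _ < δ := by
          rw [div_mul_eq_mul_div, div_lt_iff₀ hb0]
          rw [div_lt_iff₀ hδ] at hb1
          linarith

/-- Baire-category lemma. -/
lemma residual_of_near {P : ℝ → Prop} {lo hi : ℝ}
    (h : ∀ p₁, 0 < p₁ → lo < p₁ → p₁ < hi → ∀ δ > 0, ∃ q, |q - p₁| < δ ∧
      ∀ᶠ p in 𝓝[≠] q, P p) :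
    {α : ℝ | α ≠ 0 → lo < |α| → |α| < hi → P |α|} ∈ residual ℝ := by
  set O : Set ℝ := {α : ℝ | α ≠ 0 ∧ (|α| < lo ∨ hi < |α| ∨ |α| ∈ interior {p | P p})} with hO
  have hopen : IsOpen O := by
    refine IsOpen.inter isOpen_ne ?_
    refine IsOpen.union (isOpen_lt continuous_abs continuous_const) ?_
    refine IsOpen.union (isOpen_lt continuous_const continuous_abs) ?_
    exact isOpen_interior.preimage continuous_abs
  have hfin : ({0, lo, -lo, hi, -hi} : Set ℝ).Finite := by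
    simp
  have hd0 : Dense (({0, lo, -lo, hi, -hi} : Set ℝ)ᶜ) := hfin.countable.dense_compl ℝ
  have hdense : Dense O := by
    rw [Metric.dense_iff]
    intro y r hr
    obtain ⟨α₁, hα₁, hy⟩ := Metric.dense_iff.mp hd0 y (r / 2) (half_pos hr)
    rw [Metric.mem_ball, Real.dist_eq] at hα₁
    simp only [Set.mem_compl_iff, Set.mem_insert_iff, Set.mem_singleton_iff, not_or] at hy
    obtain ⟨h0, h1, h2, h3, h4⟩ := hy
    have hlo : |α₁| ≠ lo := by
      intro hh
      rcases abs_eq_abs.mp (by rw [abs_abs] : abs α₁ = abs (abs α₁)) with h5 | h5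
      · exact h1 (h5.trans hh)
      · exact h2 (by rw [h5, hh])
    have hhi : |α₁| ≠ hi := by
      intro hh
      rcases abs_eq_abs.mp (by rw [abs_abs] : abs α₁ = abs (abs α₁)) with h5 | h5
      · exact h3 (h5.trans hh)
      · exact h4 (by rw [h5, hh])
    have hpos : 0 < |α₁| := abs_pos.mpr h0
    rcases lt_or_gt_of_ne hlo with h5 | h5
    · exact ⟨α₁, by rw [Metric.mem_ball, Real.dist_eq]; linarith, h0, Or.inl h5⟩
    rcases lt_or_gt_of_ne hhi with h6 | h6
    swap
    · exact ⟨α₁, by rw [Metric.mem_ball, Real.dist_eq]; linarith, h0, Or.inr (Or.inl h6)⟩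
    -- the main case
    obtain ⟨q', hq', hev'⟩ := h |α₁| hpos h5 h6 (min (r / 4) (|α₁| / 2))
      (lt_min (by linarith) (by linarith))
    have hev2' : ∀ᶠ p in 𝓝[≠] q', p ∈ interior {p | P p} := by
      have := eventually_eventually_nhdsWithin.mpr hev'
      filter_upwards [this, self_mem_nhdsWithin] with p hp hpq
      rw [mem_interior_iff_mem_nhds]
      have hop : IsOpen ({q'}ᶜ : Set ℝ) := isOpen_compl_singleton
      rw [hop.nhdsWithin_eq hpq] at hp
      exact hp
    have hmin : 0 < min (r / 4) (|α₁| / 2) := lt_min (by linarith) (by linarith)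
    have hev3' : ∀ᶠ p in 𝓝[≠] q', |p - q'| < min (r / 4) (|α₁| / 2) := by
      have : ∀ᶠ p in 𝓝 q', |p - q'| < min (r / 4) (|α₁| / 2) := by
        have := Metric.ball_mem_nhds q' hmin
        filter_upwards [this] with p hp
        rwa [Metric.mem_ball, Real.dist_eq] at hp
      exact this.filter_mono nhdsWithin_le_nhds
    obtain ⟨p, hp1, hp2⟩ := (hev2'.and hev3').exists
    have hp3 : |p - abs α₁| < r / 2 := by
      calc |p - abs α₁| ≤ |p - q'| + |q' - abs α₁| := abs_sub_le _ _ _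
        _ < r / 4 + r / 4 := by
            have := min_le_left (r / 4) (|α₁| / 2)
            linarith
        _ = r / 2 := by ring
    have hp4 : |p - abs α₁| < |α₁| := by
      calc |p - abs α₁| ≤ |p - q'| + |q' - abs α₁| := abs_sub_le _ _ _
        _ < |α₁| / 2 + |α₁| / 2 := by
            have := min_le_right (r / 4) (|α₁| / 2)
            linarith
        _ = |α₁| := by ring
    have hp0 : 0 < p := by
      have := (abs_lt.mp hp4).1
      linarith
    rcases abs_choice α₁ with hsg | hsg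
    · refine ⟨p, ?_, hp0.ne', Or.inr (Or.inr ?_)⟩
      · rw [Metric.mem_ball, Real.dist_eq]
        rw [hsg] at hp3
        calc |p - y| ≤ |p - α₁| + |α₁ - y| := abs_sub_le _ _ _
          _ < r := by linarith
      · rw [abs_of_pos hp0]; exact hp1
    · refine ⟨-p, ?_, (neg_neg_of_pos hp0).ne, Or.inr (Or.inr ?_)⟩
      · rw [Metric.mem_ball, Real.dist_eq]
        rw [hsg] at hp3
        have e1 : |(-p) - α₁| = |p - -α₁| := by rw [← abs_neg]; congr 1; ring
        calc |(-p) - y| ≤ |(-p) - α₁| + |α₁ - y| := abs_sub_le _ _ _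
          _ < r := by rw [e1]; linarith
      · rw [abs_neg, abs_of_pos hp0]; exact hp1
  refine mem_of_superset (residual_of_dense_open hopen hdense) ?_
  rintro α ⟨_, hα⟩ h0 h1 h2
  rcases hα with hα | hα | hα
  · exact absurd h1 (not_lt.mpr hα.le)
  · exact absurd h2 (not_lt.mpr hα.le)
  · exact interior_subset hα

end Helper62HRT
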