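import Pool.Agent.Helper62.HRT.Defs

/-!
MP_0ef687_an: for a comeagre set of pairs every decaying solution vanishes.
-/

namespace Helper62HRT

open Filter Topology

noncomputable def prodF (q : ℕ) (α y : ℝ) : ℝ := ∏ n ∈ Finset.range q, ‖1 + e (α * (y + n))‖

noncomputable def prodB (q : ℕ) (α y : ℝ) : ℝ :=
  ∏ n ∈ Finset.range q, ‖1 + e (α * (y - (n + 1)))‖

lemma prodF_nonneg (q : ℕ) (α y : ℝ) : 0 ≤ prodF q α y :=
  Finset.prod_nonneg fun _ _ => norm_nonneg _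

lemma continuous_e : Continuous e := by
  unfold e
  fun_prop

lemma continuous_prodF (q : ℕ) : Continuous (fun z : ℝ × ℝ => prodF q z.1 z.2) := by
  unfold prodF
  refine continuous_finsetProd _ (fun n _ => ?_)
  refine (continuous_const.add (continuous_e.comp ?_)).norm
  fun_prop

lemma continuous_prodB (q : ℕ) : Continuous (fun z : ℝ × ℝ => prodB q z.1 z.2) := by
  unfold prodB
  refine continuous_finsetProd _ (fun n _ => ?_)
  refine (continuous_const.add (continuous_e.comp ?_)).norm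
  fun_prop

lemma e_int (k : ℤ) : e (k : ℝ) = 1 := by
  unfold e
  have : ((2 * Real.pi * (k : ℝ) : ℝ) : ℂ) * Complex.I = k * (2 * Real.pi * Complex.I) := by
    push_cast; ring
  rw [this]
  exact Complex.exp_int_mul_two_pi_mul_I k

lemma prodB_eq_prodF {q : ℕ} (hq : 0 < q) (p : ℤ) (y : ℝ) :
    prodB q ((p : ℝ) / q) y = prodF q ((p : ℝ) / q) y := by
  unfold prodB prodF
  rw [← Finset.prod_range_reflect]
  refine Finset.prod_congr rfl (fun n hn => ?_)
  have hn' : n < q := Finset.mem_range.mp hn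
  have hqR : (q : ℝ) ≠ 0 := by positivity
  have h1 : ((q - 1 - n : ℕ) : ℝ) = q - 1 - n := by
    have : q - 1 - n + (1 + n) = q := by omega
    have h2 : ((q - 1 - n : ℕ) : ℝ) + (1 + n) = q := by exact_mod_cast this
    linarith
  have h2 : (p : ℝ) / q * (y + n) = (p : ℝ) / q * (y - (((q - 1 - n : ℕ) : ℝ) + 1)) + (p : ℝ) := by
    rw [h1]; field_simp; ring
  rw [h2, e_add, e_int, mul_one]

lemma half_of_norm_zero {t : ℝ} (h : ‖1 + e t‖ = 0) : ∃ k : ℤ, 2 * t = 2 * k + 1 := by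
  rw [norm_one_add_e] at h
  have h1 : Real.cos (Real.pi * t) = 0 := by
    have : |Real.cos (Real.pi * t)| = 0 := by linarith
    exact abs_eq_zero.mp this
  obtain ⟨k, hk⟩ := Real.cos_eq_zero_iff.mp h1
  refine ⟨k, ?_⟩
  have := Real.pi_ne_zero
  field_simp at hk
  linarith

/-- no common zero -/
lemma no_common_zero {q : ℕ} {p₁ p₂ : ℤ} (hq : Odd q) (h₁ : Odd p₁) (h₂ : Even p₂) (y : ℝ)
    (ha : prodF q ((p₁ : ℝ) / q) y = 0) (hb : prodF q ((p₂ : ℝ) / q) y = 0) : False := by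
  have hq0 : (q : ℝ) ≠ 0 := by
    have := hq.pos; positivity
  obtain ⟨n, _, hn⟩ := Finset.prod_eq_zero_iff.mp ha
  obtain ⟨n', _, hn'⟩ := Finset.prod_eq_zero_iff.mp hb
  obtain ⟨k, hk⟩ := half_of_norm_zero hn
  obtain ⟨k', hk'⟩ := half_of_norm_zero hn'
  have e1 : 2 * (p₁ : ℝ) * (y + n) = q * (2 * k + 1) := by
    rw [← hk]; field_simp
  have e2 : 2 * (p₂ : ℝ) * (y + n') = q * (2 * k' + 1) := by
    rw [← hk']; field_simp
  have e3 : 2 * (p₁ : ℝ) * p₂ * (n - n') = q * (p₂ * (2 * k + 1) - p₁ * (2 * k' + 1)) := by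
    linear_combination (p₂ : ℝ) * e1 - (p₁ : ℝ) * e2
  have e4 : 2 * p₁ * p₂ * ((n : ℤ) - n') = (q : ℤ) * (p₂ * (2 * k + 1) - p₁ * (2 * k' + 1)) := by
    exact_mod_cast e3
  have hodd : Odd ((q : ℤ) * (p₂ * (2 * k + 1) - p₁ * (2 * k' + 1))) := by
    have hq' : Odd (q : ℤ) := by exact_mod_cast hq
    refine hq'.mul ?_
    refine Even.sub_odd (h₂.mul_right _) (h₁.mul ⟨k', rfl⟩)
  rw [← e4] at hodd
  have heven : Even (2 * p₁ * p₂ * ((n : ℤ) - n')) := by
    refine ⟨p₁ * p₂ * ((n : ℤ) - n'), by ring⟩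
  exact (Int.not_even_iff_odd.mpr hodd) heven

/-- the property of a pair at scale `M` -/
def Bad (M q : ℕ) (z : ℝ × ℝ) : Prop :=
  ∀ y ∈ Set.Icc (-(M : ℝ)) M,
    prodF q z.1 y / 4 < prodF q z.2 y ∨ prodB q z.2 y / 4 < prodB q z.1 y

lemma bad_eventually {q : ℕ} {p₁ p₂ : ℤ} (hq : Odd q) (h₁ : Odd p₁) (h₂ : Even p₂) (M : ℕ) :
    ∀ᶠ z in 𝓝 (((p₁ : ℝ) / q, (p₂ : ℝ) / q) : ℝ × ℝ), Bad M q z := by
  suffices hP : ∀ y ∈ Set.Icc (-(M : ℝ)) M, ∀ᶠ w : (ℝ × ℝ) × ℝ in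
      𝓝 ((((p₁ : ℝ) / q, (p₂ : ℝ) / q) : ℝ × ℝ), y),
      (fun (z : ℝ × ℝ) (y : ℝ) => prodF q z.1 y / 4 < prodF q z.2 y ∨
        prodB q z.2 y / 4 < prodB q z.1 y) w.1 w.2 from
    isCompact_Icc.eventually_forall_of_forall_eventually hP
  intro y _
  have hF1 : Continuous (fun w : (ℝ × ℝ) × ℝ => prodF q w.1.1 w.2) :=
    (continuous_prodF q).comp (f := fun w : (ℝ × ℝ) × ℝ => (w.1.1, w.2)) (by fun_prop)
  have hF2 : Continuous (fun w : (ℝ × ℝ) × ℝ => prodF q w.1.2 w.2) :=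
    (continuous_prodF q).comp (f := fun w : (ℝ × ℝ) × ℝ => (w.1.2, w.2)) (by fun_prop)
  have hB1 : Continuous (fun w : (ℝ × ℝ) × ℝ => prodB q w.1.1 w.2) :=
    (continuous_prodB q).comp (f := fun w : (ℝ × ℝ) × ℝ => (w.1.1, w.2)) (by fun_prop)
  have hB2 : Continuous (fun w : (ℝ × ℝ) × ℝ => prodB q w.1.2 w.2) :=
    (continuous_prodB q).comp (f := fun w : (ℝ × ℝ) × ℝ => (w.1.2, w.2)) (by fun_prop)
  have hopen : IsOpen {w : (ℝ × ℝ) × ℝ | prodF q w.1.1 w.2 / 4 < prodF q w.1.2 w.2 ∨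
      prodB q w.1.2 w.2 / 4 < prodB q w.1.1 w.2} :=
    (isOpen_lt (hF1.div_const 4) hF2).union (isOpen_lt (hB2.div_const 4) hB1)
  have hmem : prodF q ((p₁ : ℝ) / q) y / 4 < prodF q ((p₂ : ℝ) / q) y ∨
      prodB q ((p₂ : ℝ) / q) y / 4 < prodB q ((p₁ : ℝ) / q) y := by
    rw [prodB_eq_prodF hq.pos, prodB_eq_prodF hq.pos]
    by_contra hcon
    rw [not_or, not_lt, not_lt] at hcon
    obtain ⟨c1, c2⟩ := hcon
    have n1 := prodF_nonneg q ((p₁ : ℝ) / q) y
    have n2 := prodF_nonneg q ((p₂ : ℝ) / q) y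
    exact no_common_zero hq h₁ h₂ y (by linarith) (by linarith)
  have hmem2 : (((((p₁ : ℝ) / q, (p₂ : ℝ) / q) : ℝ × ℝ), y) : (ℝ × ℝ) × ℝ) ∈
      {w : (ℝ × ℝ) × ℝ | prodF q w.1.1 w.2 / 4 < prodF q w.1.2 w.2 ∨
      prodB q w.1.2 w.2 / 4 < prodB q w.1.1 w.2} := hmem
  have hres := hopen.mem_nhds hmem2
  exact hres

lemma dense_bad (M : ℕ) :
    Dense (⋃ q ∈ {q : ℕ | M < q}, interior {z : ℝ × ℝ | Bad M q z}) := by
  rw [Metric.dense_iff]
  rintro ⟨α, β⟩ r hr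
  obtain ⟨n, hn⟩ := exists_nat_gt (max (M : ℝ) (2 / r))
  set q : ℕ := 2 * n + 1 with hq
  have hqodd : Odd q := ⟨n, rfl⟩
  have hnM : (M : ℝ) < n := (le_max_left _ _).trans_lt hn
  have hnM' : M < n := by exact_mod_cast hnM
  have hqpos : (0 : ℝ) < q := by have := hqodd.pos; positivity
  have hqr : 2 / q < r := by
    have h1 : 2 / r < n := (le_max_right _ _).trans_lt hn
    rw [div_lt_iff₀ hr] at h1
    rw [div_lt_iff₀ hqpos]
    have : (n : ℝ) ≤ q := by rw [hq]; push_cast; linarith [Nat.cast_nonneg (α := ℝ) n]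
    nlinarith
  set p₁ : ℤ := 2 * ⌊α * q / 2⌋ + 1 with hp₁
  set p₂ : ℤ := 2 * ⌊β * q / 2⌋ with hp₂
  have ho : Odd p₁ := ⟨_, rfl⟩
  have he : Even p₂ := ⟨⌊β * q / 2⌋, by rw [hp₂]; ring⟩
  have hev := bad_eventually hqodd ho he M
  refine ⟨((p₁ : ℝ) / q, (p₂ : ℝ) / q), ?_, ?_⟩
  · rw [Metric.mem_ball, Prod.dist_eq, max_lt_iff, Real.dist_eq, Real.dist_eq]
    have a1 := Int.floor_le (α * q / 2)
    have a2 := Int.lt_floor_add_one (α * q / 2)
    have b1 := Int.floor_le (β * q / 2)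
    have b2 := Int.lt_floor_add_one (β * q / 2)
    constructor
    · have : (p₁ : ℝ) / q - α = (p₁ - α * q) / q := by field_simp
      show |(p₁ : ℝ) / q - α| < r
      rw [this, abs_div, abs_of_pos hqpos]
      refine lt_of_le_of_lt ?_ hqr
      apply div_le_div_of_nonneg_right _ hqpos.le
      rw [abs_le, hp₁]
      push_cast
      constructor <;> linarith
    · have : (p₂ : ℝ) / q - β = (p₂ - β * q) / q := by field_simp
      show |(p₂ : ℝ) / q - β| < r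
      rw [this, abs_div, abs_of_pos hqpos]
      refine lt_of_le_of_lt ?_ hqr
      apply div_le_div_of_nonneg_right _ hqpos.le
      rw [abs_le, hp₂]
      push_cast
      constructor <;> linarith
  · rw [Set.mem_iUnion₂]
    refine ⟨q, ?_, mem_interior_iff_mem_nhds.mpr hev⟩
    show M < q
    omega

/-- relation between the values at distance `m`, forward. -/
lemma forward {α β x : ℝ} {u : ℤ → ℂ}
    (h : ∀ N : ℤ, u (N + 1) * (1 + e (α * (x + N))) = u N * (1 + e (β * (x + N)))) (N : ℤ)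
    (m : ℕ) : ‖u (N + m)‖ * prodF m α (x + N) = ‖u N‖ * prodF m β (x + N) := by
  induction m with
  | zero => simp [prodF]
  | succ m ih =>
    unfold prodF at ih ⊢
    rw [Finset.prod_range_succ, Finset.prod_range_succ]
    have h1 := congrArg norm (h (N + m))
    rw [norm_mul, norm_mul] at h1
    have e1 : N + ((m + 1 : ℕ) : ℤ) = N + m + 1 := by push_cast; ring
    have e2 : x + ((N + m : ℤ) : ℝ) = x + N + m := by push_cast; ring
    rw [e2] at h1
    rw [e1]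
    set A := ∏ n ∈ Finset.range m, ‖1 + e (α * (x + N + n))‖
    set B := ∏ n ∈ Finset.range m, ‖1 + e (β * (x + N + n))‖
    calc ‖u (N + m + 1)‖ * (A * ‖1 + e (α * (x + N + m))‖)
        = (‖u (N + m + 1)‖ * ‖1 + e (α * (x + N + m))‖) * A := by ring
      _ = (‖u (N + m)‖ * A) * ‖1 + e (β * (x + N + m))‖ := by rw [h1]; ring
      _ = _ := by rw [ih]; ring

lemma backward {α β x : ℝ} {u : ℤ → ℂ}
    (h : ∀ N : ℤ, u (N + 1) * (1 + e (α * (x + N))) = u N * (1 + e (β * (x + N)))) (N : ℤ)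
    (m : ℕ) : ‖u N‖ * prodB m α (x + N) = ‖u (N - m)‖ * prodB m β (x + N) := by
  induction m with
  | zero => simp [prodB]
  | succ m ih =>
    unfold prodB at ih ⊢
    rw [Finset.prod_range_succ, Finset.prod_range_succ]
    have h1 := congrArg norm (h (N - (m + 1)))
    rw [norm_mul, norm_mul] at h1
    have e1 : N - ((m + 1 : ℕ) : ℤ) = N - (m + 1) := by push_cast; ring
    have e3 : N - ((m : ℤ) + 1) + 1 = N - m := by ring
    have e2 : x + ((N - ((m : ℤ) + 1) : ℤ) : ℝ) = x + N - (m + 1) := by push_cast; ring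
    rw [e2, e3] at h1
    rw [e1]
    set A := ∏ n ∈ Finset.range m, ‖1 + e (α * (x + N - (n + 1)))‖
    set B := ∏ n ∈ Finset.range m, ‖1 + e (β * (x + N - (n + 1)))‖
    calc ‖u N‖ * (A * ‖1 + e (α * (x + N - (m + 1)))‖)
        = (‖u N‖ * A) * ‖1 + e (α * (x + N - (m + 1)))‖ := by ring
      _ = (‖u (N - m)‖ * ‖1 + e (α * (x + N - (m + 1)))‖) * B := by rw [ih]; ring
      _ = _ := by rw [h1]; ring

/-- **Main theorem (NO side).** -/
theorem no_generic : ∃ G ∈ residual (ℝ × ℝ), ∀ z ∈ G, Irrational z.1 ∧ Irrational z.2 ∧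
    z.1 ≠ z.2 ∧ ∀ (x0 : ℝ) (f : ℝ → ℂ), HoldsAlong z.1 z.2 x0 f →
      Tendsto (fun N : ℤ => f (x0 + N)) cofinite (𝓝 0) → ∀ N : ℤ, f (x0 + N) = 0 := by
  have hbad : ∀ᶠ z : ℝ × ℝ in residual (ℝ × ℝ), ∀ M : ℕ, ∃ q : ℕ, M < q ∧ Bad M q z := by
    rw [eventually_countable_forall]
    intro M
    have hopen : IsOpen (⋃ q ∈ {q : ℕ | M < q}, interior {z : ℝ × ℝ | Bad M q z}) :=
      isOpen_biUnion (fun q _ => isOpen_interior)
    filter_upwards [residual_of_dense_open hopen (dense_bad M)] with z hz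
    rw [Set.mem_iUnion₂] at hz
    obtain ⟨q, hq, hz⟩ := hz
    exact ⟨q, hq, interior_subset hz⟩
  have hdense_of : ∀ g : ℝ × ℝ → ℝ, Continuous g →
      (∀ z : ℝ × ℝ, ∀ r > 0, ∃ w ∈ Metric.ball z r, g w ≠ 0) →
      ∀ᶠ z : ℝ × ℝ in residual (ℝ × ℝ), g z ≠ 0 := by
    intro g hg hd
    have hopen : IsOpen {z : ℝ × ℝ | g z ≠ 0} := isOpen_ne_fun hg continuous_const
    refine residual_of_dense_open hopen ?_
    rw [Metric.dense_iff]
    intro z r hr
    obtain ⟨w, hw, hw2⟩ := hd z r hr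
    exact ⟨w, hw, hw2⟩
  have hsmall : ∀ (z : ℝ × ℝ) (r : ℝ), 0 < r → ∀ a b : ℝ, |a| ≤ 1 → |b| ≤ 1 →
      (z.1 + r / 2 * a, z.2 + r / 2 * b) ∈ Metric.ball z r := by
    intro z r hr a b ha hb
    rw [Metric.mem_ball, Prod.dist_eq, max_lt_iff, Real.dist_eq, Real.dist_eq]
    constructor
    · show |z.1 + r / 2 * a - z.1| < r
      rw [add_sub_cancel_left, abs_mul, abs_of_pos (by linarith)]
      nlinarith [abs_nonneg a]
    · show |z.2 + r / 2 * b - z.2| < r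
      rw [add_sub_cancel_left, abs_mul, abs_of_pos (by linarith)]
      nlinarith [abs_nonneg b]
  have hi1 : ∀ᶠ z : ℝ × ℝ in residual (ℝ × ℝ), ∀ s : ℚ, z.1 - s ≠ 0 := by
    rw [eventually_countable_forall]
    intro s
    refine hdense_of (fun z => z.1 - s) (by fun_prop) (fun z r hr => ?_)
    by_cases h : z.1 - (s : ℝ) = 0
    · refine ⟨_, hsmall z r hr 1 0 (by simp) (by simp), ?_⟩
      show z.1 + r / 2 * 1 - s ≠ 0
      intro h'; linarith
    · exact ⟨z, Metric.mem_ball_self hr, h⟩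
  have hi2 : ∀ᶠ z : ℝ × ℝ in residual (ℝ × ℝ), ∀ s : ℚ, z.2 - s ≠ 0 := by
    rw [eventually_countable_forall]
    intro s
    refine hdense_of (fun z => z.2 - s) (by fun_prop) (fun z r hr => ?_)
    by_cases h : z.2 - (s : ℝ) = 0
    · refine ⟨_, hsmall z r hr 0 1 (by simp) (by simp), ?_⟩
      show z.2 + r / 2 * 1 - s ≠ 0
      intro h'; linarith
    · exact ⟨z, Metric.mem_ball_self hr, h⟩
  have hi3 : ∀ᶠ z : ℝ × ℝ in residual (ℝ × ℝ), z.1 - z.2 ≠ 0 := by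
    refine hdense_of (fun z => z.1 - z.2) (by fun_prop) (fun z r hr => ?_)
    by_cases h : z.1 - z.2 = 0
    · refine ⟨_, hsmall z r hr 1 0 (by simp) (by simp), ?_⟩
      show z.1 + r / 2 * 1 - (z.2 + r / 2 * 0) ≠ 0
      intro h'; linarith
    · exact ⟨z, Metric.mem_ball_self hr, h⟩
  refine ⟨_, hbad.and (hi1.and (hi2.and hi3)), ?_⟩
  rintro z ⟨hz, h1, h2, h3⟩
  refine ⟨?_, ?_, fun h => h3 (by rw [h, sub_self]), ?_⟩
  · rintro ⟨s, hs⟩
    exact h1 s (by rw [hs, sub_self])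
  · rintro ⟨s, hs⟩
    exact h2 s (by rw [hs, sub_self])
  · intro x0 f hf hlim N
    by_contra hne
    set u : ℤ → ℂ := fun N => f (x0 + N) with hu
    have hrel : ∀ N : ℤ, u (N + 1) * (1 + e (z.1 * (x0 + N))) = u N * (1 + e (z.2 * (x0 + N))) := by
      intro N
      have := hf N
      have e1 : x0 + ((N + 1 : ℤ) : ℝ) = x0 + N + 1 := by push_cast; ring
      show f (x0 + ((N + 1 : ℤ) : ℝ)) * _ = f (x0 + N) * _
      rw [e1]; exact this
    have hpos : 0 < ‖u N‖ := norm_pos_iff.mpr hne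
    -- eventually small
    have hsm : ∀ᶠ K : ℤ in cofinite, ‖u K‖ < ‖u N‖ / 4 := by
      have := (tendsto_zero_iff_norm_tendsto_zero.mp hlim)
      exact this.eventually_lt_const (by linarith)
    rw [Int.cofinite_eq, eventually_sup, eventually_atBot, eventually_atTop] at hsm
    obtain ⟨⟨K1, hK1⟩, ⟨K2, hK2⟩⟩ := hsm
    obtain ⟨M, hM⟩ := exists_nat_gt (|x0 + N| + (|K1| + |K2| + |N| : ℤ))
    have hM1 : |x0 + N| ≤ M := by
      have : (0 : ℝ) ≤ ((|K1| + |K2| + |N| : ℤ) : ℝ) := by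
        exact_mod_cast (by positivity : (0 : ℤ) ≤ |K1| + |K2| + |N|)
      linarith
    have hM2 : |K1| + |K2| + |N| < (M : ℤ) := by
      have : ((|K1| + |K2| + |N| : ℤ) : ℝ) < (M : ℝ) := by
        have := abs_nonneg (x0 + (N : ℝ))
        linarith
      exact_mod_cast this
    obtain ⟨q, hq, hB⟩ := hz M
    have hB' := hB (x0 + N) (abs_le.mp hM1)
    have hf1 := forward hrel N q
    have hb1 := backward hrel N q
    have hqM : (M : ℤ) < q := by exact_mod_cast hq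
    have s1 : ‖u (N + q)‖ < ‖u N‖ / 4 := by
      apply hK2
      have a1 := le_abs_self K2
      have a2 := neg_abs_le N
      have a3 := abs_nonneg K1
      omega
    have s2 : ‖u (N - q)‖ < ‖u N‖ / 4 := by
      apply hK1
      have a1 := neg_abs_le K1
      have a2 := le_abs_self N
      have a3 := abs_nonneg K2
      omega
    have nF := prodF_nonneg q z.1 (x0 + N)
    have nB : 0 ≤ prodB q z.2 (x0 + N) := Finset.prod_nonneg fun _ _ => norm_nonneg _
    rcases hB' with h | h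
    · have : ‖u N‖ * prodF q z.2 (x0 + N) ≤ ‖u N‖ * (prodF q z.1 (x0 + N) / 4) := by
        rw [← hf1]
        calc ‖u (N + q)‖ * prodF q z.1 (x0 + N) ≤ ‖u N‖ / 4 * prodF q z.1 (x0 + N) :=
              mul_le_mul_of_nonneg_right s1.le nF
          _ = _ := by ring
      exact absurd h (not_lt.mpr (le_of_mul_le_mul_left this hpos))
    · have : ‖u N‖ * prodB q z.1 (x0 + N) ≤ ‖u N‖ * (prodB q z.2 (x0 + N) / 4) := by
        rw [hb1]
        calc ‖u (N - q)‖ * prodB q z.2 (x0 + N) ≤ ‖u N‖ / 4 * prodB q z.2 (x0 + N) :=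
              mul_le_mul_of_nonneg_right s2.le nB
          _ = _ := by ring
      exact absurd h (not_lt.mpr (le_of_mul_le_mul_left this hpos))

end Helper62HRT
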